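import Pool.Agent.Lib.MP_922422_co.Defs

/-! The two-squares bound for words with holes. -/

namespace Pool.Agent.Lib.MP_922422_co

open Finset

variable {A : Type}

/-- three squares at the start of a word: the shortest one occurs again -/
lemma three_squares (f : ℕ → A) {p q r : ℕ} (h0 : 0 < p) (hpq : p < q) (hqr : q < r)
    (hp : ∀ j < p, f (j + p) = f j) (hq : ∀ j < q, f (j + q) = f j)
    (hr : ∀ j < r, f (j + r) = f j) :
    ∃ t, 0 < t ∧ t + 2 * p ≤ 2 * r ∧ ∀ j < 2 * p, f (t + j) = f j := by
  by_cases h2 : 2 * p ≤ r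
  · refine ⟨r, by omega, by omega, fun j hj => ?_⟩
    rw [add_comm]; exact hr j (by omega)
  push Not at h2
  obtain ⟨d, rfl⟩ : ∃ d, q = p + d := ⟨q - p, by omega⟩
  obtain ⟨δ, rfl⟩ : ∃ δ, r = p + d + δ := ⟨r - (p + d), by omega⟩
  have hd : ∀ j < p, f (p + j + d) = f (p + j) := by
    intro j hj
    have h1 := hp j hj
    have h3 := hq j (by omega)
    rw [show p + j + d = j + (p + d) by ring, h3, add_comm p j, h1]
  have he : ∀ j < p, f (p + j + (d + δ)) = f (p + j) := by
    intro j hj
    have h1 := hp j hj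
    have h3 := hr j (by omega)
    rw [show p + j + (d + δ) = j + (p + d + δ) by ring, h3, add_comm p j, h1]
  have hδ : ∀ j < p + d, f (p + j + δ) = f (p + j) := by
    intro j hj
    by_cases hjd : d ≤ j
    · obtain ⟨s, rfl⟩ : ∃ s, j = s + d := ⟨j - d, by omega⟩
      have h1 := hd s (by omega)
      have h3 := he s (by omega)
      rw [show p + (s + d) + δ = p + s + (d + δ) by ring, h3, show p + (s + d) = p + s + d by ring, h1]
    · have h1 := he j (by omega)
      have h3 := hd (j + δ) (by omega)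
      rw [← h1, show p + j + (d + δ) = p + (j + δ) + d by ring, h3]
      congr 1; ring
  have hk : ∀ j, j < d → j < δ → f (p + (j + p - δ)) = f (p + j) := by
    intro j hj1 hj2
    have h1 := hq (p + j) (by omega)
    have h3 := he (j + p - δ) (by omega)
    rw [← h1, ← h3]
    congr 1; omega
  have hz : ∀ j < p, f (p + j) = f j := fun j hj => by rw [add_comm]; exact hp j hj
  by_cases hc : δ ≤ d
  · refine ⟨δ, by omega, by omega, fun j hj => ?_⟩
    by_cases h1 : p ≤ j
    · obtain ⟨s, rfl⟩ : ∃ s, j = p + s := ⟨j - p, by omega⟩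
      rw [show δ + (p + s) = p + s + δ by ring]
      exact hδ s (by omega)
    by_cases h3 : j + δ < p
    · rw [← hz (δ + j) (by omega), ← hz j (by omega), show p + (δ + j) = p + j + δ by ring]
      exact hδ j (by omega)
    · have h4 := hk (j + δ - p) (by omega) (by omega)
      rw [show j + δ - p + p - δ = j by omega, show p + (j + δ - p) = δ + j by omega] at h4
      rw [← h4]; exact hz j (by omega)
  · refine ⟨d, by omega, by omega, fun j hj => ?_⟩
    by_cases h1 : p ≤ j
    · obtain ⟨s, rfl⟩ : ∃ s, j = p + s := ⟨j - p, by omega⟩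
      rw [show d + (p + s) = p + s + d by ring]
      exact hd s (by omega)
    by_cases h3 : j + d < p
    · rw [← hz (d + j) (by omega), ← hz j (by omega), show p + (d + j) = p + j + d by ring]
      exact hd j (by omega)
    · have h4 := hk (j + d - p) (by omega) (by omega)
      have h5 := hδ (j + d - p + p - δ) (by omega)
      have h6 := hd j (by omega)
      rw [show p + (j + d - p + p - δ) + δ = p + j + d by omega] at h5
      rw [show p + (j + d - p) = d + j by omega] at h4
      rw [← h4, ← h5, h6]; exact hz j (by omega)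

/-- the squares counted at position `i` -/
def Sset (w : List (Option A)) (i : ℕ) : Set (List A) :=
  {x : List A | x ≠ [] ∧ Occurs w x i ∧ ∀ i' : ℕ, i < i' → ¬ Occurs w x i'}

lemma Sq_eq (w : List (Option A)) (i : ℕ) : Sq w i = (Sset w i).ncard := rfl

lemma Sset_finite [Finite A] (w : List (Option A)) (i : ℕ) : (Sset w i).Finite := by
  refine (List.finite_length_le A w.length).subset ?_
  intro x hx
  have := hx.2.1.1
  show x.length ≤ w.length
  omega

/-- the full word obtained by filling the holes with `ψ` -/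
def full (w : List (Option A)) (ψ : ℕ → A) (y : ℕ) : A :=
  match w[y]? with
  | some (some c) => c
  | _ => ψ y

lemma full_of_some {w : List (Option A)} {ψ : ℕ → A} {y : ℕ} {c : A}
    (h : w[y]? = some (some c)) : full w ψ y = c := by
  simp [full, h]

lemma full_of_none {w : List (Option A)} {ψ : ℕ → A} {y : ℕ}
    (h : w[y]? = some none) : full w ψ y = ψ y := by
  simp [full, h]

lemma get_cases (w : List (Option A)) {y : ℕ} (hy : y < w.length) :
    w[y]? = some none ∨ ∃ c, w[y]? = some (some c) := by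
  rw [List.getElem?_eq_getElem hy]
  cases w[y] with
  | none => exact Or.inl rfl
  | some c => exact Or.inr ⟨c, rfl⟩

lemma sq_shift (x : List A) {j : ℕ} (hj : j < x.length) :
    (x ++ x)[j + x.length]? = (x ++ x)[j]? := by
  rw [List.getElem?_append_right (by omega), List.getElem?_append_left hj]
  congr 1; omega

/-- the squares at `i` that agree with the filling `ψ` -/
def Tset (w : List (Option A)) (i : ℕ) (ψ : ℕ → A) : Set (List A) :=
  {x | x ∈ Sset w i ∧ ∀ j < 2 * x.length, (x ++ x)[j]? = some (full w ψ (i + j))}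

lemma mem_Tset {w : List (Option A)} {i : ℕ} {ψ : ℕ → A} {x : List A} (hx : x ∈ Sset w i)
    (h : ∀ j < 2 * x.length, w[i + j]? = some none → (x ++ x)[j]? = some (ψ (i + j))) :
    x ∈ Tset w i ψ := by
  refine ⟨hx, fun j hj => ?_⟩
  have hl := hx.2.1.1
  rcases get_cases w (y := i + j) (by omega) with h1 | ⟨c, h1⟩
  · rw [full_of_none h1]; exact h j hj h1
  · rw [full_of_some h1]; exact hx.2.1.2 j c hj h1

lemma Tset_per {w : List (Option A)} {i : ℕ} {ψ : ℕ → A} {x : List A} (hx : x ∈ Tset w i ψ) :
    ∀ j < x.length, full w ψ (i + (j + x.length)) = full w ψ (i + j) := by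
  intro j hj
  have h1 := hx.2 j (by omega)
  have h2 := hx.2 (j + x.length) (by omega)
  rw [sq_shift x hj, h1] at h2
  exact (Option.some.inj h2).symm

lemma Tset_inj {w : List (Option A)} {i : ℕ} {ψ : ℕ → A} {x y : List A} (hx : x ∈ Tset w i ψ)
    (hy : y ∈ Tset w i ψ) (h : x.length = y.length) : x = y := by
  apply List.ext_getElem?
  intro j
  by_cases hj : j < x.length
  · have h1 := hx.2 j (by omega)
    have h2 := hy.2 j (by omega)
    rw [List.getElem?_append_left hj] at h1
    rw [List.getElem?_append_left (by omega)] at h2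
    rw [h1, h2]
  · rw [List.getElem?_eq_none (by omega), List.getElem?_eq_none (by omega)]

lemma Tset_three {w : List (Option A)} {i : ℕ} {ψ : ℕ → A} {x y z : List A}
    (hx : x ∈ Tset w i ψ) (hy : y ∈ Tset w i ψ) (hz : z ∈ Tset w i ψ)
    (h1 : x.length < y.length) (h2 : y.length < z.length) : False := by
  have h0 : 0 < x.length := List.length_pos_of_ne_nil hx.1.1
  obtain ⟨t, ht0, ht, hf⟩ := three_squares (fun j => full w ψ (i + j)) h0 h1 h2
    (Tset_per hx) (Tset_per hy) (Tset_per hz)
  have hl := hz.1.2.1.1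
  refine hx.1.2.2 (i + t) (by omega) ⟨by omega, fun j c hj hc => ?_⟩
  have h3 : full w ψ (i + (t + j)) = full w ψ (i + j) := hf j hj
  rw [hx.2 j hj, ← h3, ← add_assoc, full_of_some hc]

lemma card_le_two_of (T : Finset (List A)) {w : List (Option A)} {i : ℕ} {ψ : ℕ → A}
    (hT : ∀ x ∈ T, x ∈ Tset w i ψ) : T.card ≤ 2 := by
  by_contra hc
  push Not at hc
  obtain ⟨x, y, z, hx, hy, hz, hxy, hxz, hyz⟩ := Finset.two_lt_card_iff.1 hc
  have a := hT x hx
  have b := hT y hy
  have c := hT z hz
  have n1 : x.length ≠ y.length := fun h => hxy (Tset_inj a b h)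
  have n2 : x.length ≠ z.length := fun h => hxz (Tset_inj a c h)
  have n3 : y.length ≠ z.length := fun h => hyz (Tset_inj b c h)
  rcases lt_or_gt_of_ne n1 with l1 | l1 <;> rcases lt_or_gt_of_ne n2 with l2 | l2 <;>
    rcases lt_or_gt_of_ne n3 with l3 | l3
  · exact Tset_three a b c l1 l3
  · exact Tset_three a c b l2 l3
  · omega
  · exact Tset_three c a b l2 l1
  · exact Tset_three b a c l1 l2
  · omega
  · exact Tset_three b c a l3 l2
  · exact Tset_three c b a l3 l1

/-- extend a filling of the hole set to all positions -/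
def ext (H : Finset ℕ) (a : A) (ψ : H → A) (y : ℕ) : A := if h : y ∈ H then ψ ⟨y, h⟩ else a

open Classical in
/-- finite version of `Tset` -/
noncomputable def TF [Finite A] (w : List (Option A)) (i : ℕ) (ψ : ℕ → A) : Finset (List A) :=
  (Sset_finite w i).toFinset.filter (fun x => x ∈ Tset w i ψ)

lemma TF_card [Finite A] (w : List (Option A)) (i : ℕ) (ψ : ℕ → A) : (TF w i ψ).card ≤ 2 :=
  card_le_two_of _ (fun _ hx => by
    classical
    exact (Finset.mem_filter.1 hx).2)

lemma mem_TF [Finite A] {w : List (Option A)} {i : ℕ} {ψ : ℕ → A} {x : List A} :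
    x ∈ TF w i ψ ↔ x ∈ Tset w i ψ := by
  classical
  simp only [TF, Finset.mem_filter, Set.Finite.mem_toFinset]
  exact ⟨fun h => h.2, fun h => ⟨h.1, h⟩⟩

/-- the filling read off from a square -/
def rd (a : A) (x : List A) (i : ℕ) (y : ℕ) : A := ((x ++ x)[y - i]?).getD a

lemma rd_spec (a : A) (x : List A) (i : ℕ) {j : ℕ} (hj : j < 2 * x.length) :
    (x ++ x)[j]? = some (rd a x i (i + j)) := by
  unfold rd
  rw [show i + j - i = j by omega, List.getElem?_eq_getElem (by simp; omega)]
  rfl

lemma mem_T_rd {w : List (Option A)} {H : Finset ℕ} (hH : holes w = ↑H) {i : ℕ} (a : A)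
    {x : List A} (hx : x ∈ Sset w i) (ψ : H → A)
    (hψ : ∀ y : H, i ≤ y.1 → y.1 < i + 2 * x.length → ψ y = rd a x i y.1) :
    x ∈ Tset w i (ext H a ψ) := by
  refine mem_Tset hx (fun j hj h => ?_)
  have hm : i + j ∈ H := by
    have : i + j ∈ holes w := h
    rw [hH] at this; exact this
  rw [rd_spec a x i hj]
  simp only [ext, hm, dif_pos]
  rw [hψ ⟨i + j, hm⟩ (by simp) (by simp; omega)]

lemma Sq_le [Fintype A] {w : List (Option A)} {H : Finset ℕ} (hH : holes w = ↑H) (i : ℕ) (a : A) :
    Sq w i ≤ 2 * Fintype.card A ^ H.card := by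
  classical
  rw [Sq_eq, Set.ncard_eq_toFinset_card _ (Sset_finite w i)]
  have hsub : (Sset_finite w i).toFinset ⊆
      (Finset.univ : Finset (H → A)).biUnion (fun ψ => TF w i (ext H a ψ)) := by
    intro x hx
    rw [Set.Finite.mem_toFinset] at hx
    exact Finset.mem_biUnion.2 ⟨fun y => rd a x i y.1, Finset.mem_univ _,
      mem_TF.2 (mem_T_rd hH a hx _ (fun _ _ _ => rfl))⟩
  refine (Finset.card_le_card hsub).trans (Finset.card_biUnion_le.trans ?_)
  refine (Finset.sum_le_sum (fun ψ _ => TF_card w i (ext H a ψ))).trans ?_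
  simp [mul_comm]

/-- at an extremal position every square covers every hole -/
lemma cover [Fintype A] {w : List (Option A)} {H : Finset ℕ} (hH : holes w = ↑H) {i : ℕ}
    (hk : 2 ≤ Fintype.card A) (hS : Sq w i = 2 * Fintype.card A ^ H.card)
    {x : List A} (hx : x ∈ Sset w i) {y : ℕ} (hy : y ∈ H) : i ≤ y ∧ y < i + 2 * x.length := by
  classical
  by_contra hn
  obtain ⟨a⟩ : Nonempty A := Fintype.card_pos_iff.1 (by omega)
  obtain ⟨b, hb⟩ := Fintype.exists_ne_of_one_lt_card (by omega : 1 < Fintype.card A) (rd a x i y)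
  let ψ0 : H → A := fun z => rd a x i z.1
  let ψ1 : H → A := Function.update ψ0 ⟨y, hy⟩ b
  have hne : ψ1 ≠ ψ0 := by
    intro h
    have := congrFun h ⟨y, hy⟩
    simp [ψ1, ψ0] at this
    exact hb this
  have h1 : x ∈ TF w i (ext H a ψ1) := by
    refine mem_TF.2 (mem_T_rd hH a hx _ (fun z h1 h2 => ?_))
    have : z ≠ ⟨y, hy⟩ := by
      rintro rfl
      exact hn ⟨h1, h2⟩
    simp [ψ1, ψ0, Function.update_of_ne this]
  let F : (H → A) → Finset (List A) := fun ψ =>
    if ψ = ψ1 then (TF w i (ext H a ψ)).erase x else TF w i (ext H a ψ)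
  have hsub : (Sset_finite w i).toFinset ⊆ (Finset.univ : Finset (H → A)).biUnion F := by
    intro u hu
    rw [Set.Finite.mem_toFinset] at hu
    have hu' : u ∈ TF w i (ext H a (fun z => rd a u i z.1)) :=
      mem_TF.2 (mem_T_rd hH a hu _ (fun _ _ _ => rfl))
    refine Finset.mem_biUnion.2 ⟨fun z => rd a u i z.1, Finset.mem_univ _, ?_⟩
    simp only [F]
    split_ifs with h
    · refine Finset.mem_erase.2 ⟨?_, hu'⟩
      rintro rfl
      exact hne h.symm
    · exact hu'
  have hlt : ∑ ψ : H → A, (F ψ).card < ∑ _ψ : H → A, 2 := by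
    apply Finset.sum_lt_sum
    · intro ψ _
      simp only [F]
      split_ifs
      · exact (Finset.card_erase_le).trans (TF_card _ _ _)
      · exact TF_card _ _ _
    · refine ⟨ψ1, Finset.mem_univ _, ?_⟩
      simp only [F, if_pos]
      rw [Finset.card_erase_of_mem h1]
      have := TF_card w i (ext H a ψ1)
      omega
  have h2 := (Finset.card_le_card hsub).trans Finset.card_biUnion_le
  rw [Sq_eq, Set.ncard_eq_toFinset_card _ (Sset_finite w i)] at hS
  have h3 : ∑ _ψ : H → A, 2 = 2 * Fintype.card A ^ H.card := by simp [mul_comm]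
  omega

lemma le_of_extremal [Fintype A] {w : List (Option A)} {H : Finset ℕ} (hH : holes w = ↑H) {i : ℕ}
    (hk : 2 ≤ Fintype.card A) (hS : Sq w i = 2 * Fintype.card A ^ H.card)
    {y : ℕ} (hy : y ∈ H) : i ≤ y := by
  have : (Sset w i).Nonempty := by
    apply Set.nonempty_of_ncard_ne_zero
    rw [← Sq_eq, hS]
    positivity
  obtain ⟨x, hx⟩ := this
  exact (cover hH hk hS hx hy).1

end Pool.Agent.Lib.MP_922422_co
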