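import Pool.Agent.Lib.MP_922422_co.Basic
import Pool.Agent.Lib.MP_922422_co.Block

/-! Encoding of the block-level word. -/

namespace Pool.Agent.Lib.MP_922422_co

open Finset

variable {A : Type}

/-- data of the construction -/
structure Dat (A : Type) where
  a : A
  b : A
  hab : a ≠ b
  H : Finset ℕ
  i0 : ℕ
  m0 : ℕ
  hH : ∀ y ∈ H, i0 ≤ y ∧ y < i0 + m0
  T : ℕ
  φ : ℕ → ℕ → A
  hφ : ∀ m < T, ∀ m' < T, (∀ y ∈ H, φ m y = φ m' y) → m = m'

namespace Dat

variable (D : Dat A)

/-- block length -/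
def K : ℕ := 2 * D.m0 + 3

/-- letters of a block -/
def bl (σ : Option ℕ) (o : ℕ) : A :=
  match σ with
  | none => D.a
  | some m => if D.i0 + o ∈ D.H then D.φ m (D.i0 + o)
      else if D.m0 + 1 ≤ o ∧ o < 2 * D.m0 + 2 then D.b else D.a

/-- the word with holes filled by filling number `m` -/
def F (m y : ℕ) : A :=
  if y < D.i0 then D.a else D.bl (gg D.T m ((y - D.i0) / D.K)) ((y - D.i0) % D.K)

/-- the word with holes -/
def W (y : ℕ) : Option A := if y ∈ D.H then none else some (D.F 0 y)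

/-- the finite word -/
def w (n : ℕ) : List (Option A) := (List.range n).map D.W

lemma K_pos : 0 < D.K := by unfold K; omega

lemma w_len (n : ℕ) : (D.w n).length = n := by simp [w]

lemma w_get {n y : ℕ} (hy : y < n) : (D.w n)[y]? = some (D.W y) := by
  simp [w, hy]

lemma F_eq (m c o : ℕ) (ho : o < D.K) : D.F m (D.i0 + (c * D.K + o)) = D.bl (gg D.T m c) o := by
  unfold F
  rw [if_neg (by omega), show D.i0 + (c * D.K + o) - D.i0 = o + D.K * c by
    rw [mul_comm]; omega, Nat.add_mul_div_left _ _ D.K_pos, Nat.add_mul_mod_self_left,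
    Nat.div_eq_of_lt ho, Nat.mod_eq_of_lt ho, zero_add]

lemma decomp {y : ℕ} (hy : D.i0 ≤ y) : ∃ c o, o < D.K ∧ y = D.i0 + (c * D.K + o) := by
  refine ⟨(y - D.i0) / D.K, (y - D.i0) % D.K, Nat.mod_lt _ D.K_pos, ?_⟩
  have := Nat.div_add_mod (y - D.i0) D.K
  rw [mul_comm] at this
  omega

lemma F_indep (m m' : ℕ) {y : ℕ} (hy : y ∉ D.H) : D.F m y = D.F m' y := by
  by_cases h : y < D.i0
  · simp [F, h]
  obtain ⟨c, o, ho, rfl⟩ := D.decomp (y := y) (by omega)
  rw [F_eq _ _ _ _ ho, F_eq _ _ _ _ ho]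
  unfold gg
  split_ifs with hc
  · subst hc
    simp only [zero_mul, zero_add] at hy
    simp [bl, hy]
  · rfl

lemma F_hole (m : ℕ) {y : ℕ} (hy : y ∈ D.H) : D.F m y = D.φ m y := by
  have h := D.hH y hy
  have h1 := D.F_eq m 0 (y - D.i0) (by unfold K; omega)
  rw [show D.i0 + (0 * D.K + (y - D.i0)) = y by omega] at h1
  rw [h1]
  have : D.i0 + (y - D.i0) = y := by omega
  simp [gg, bl, this, hy]

lemma holes_w {n : ℕ} (hn : D.i0 + D.m0 ≤ n) : holes (D.w n) = ↑D.H := by
  ext y
  simp only [holes, Set.mem_ofPred_eq, Finset.mem_coe]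
  by_cases hy : y < n
  · rw [D.w_get hy]
    unfold W
    by_cases h : y ∈ D.H <;> simp [h]
  · rw [List.getElem?_eq_none (by rw [w_len]; omega)]
    constructor
    · intro h; cases h
    · intro h; have := D.hH y h; omega

lemma bl_low (σ : Option ℕ) {o : ℕ} (h : ∀ y ∈ D.H, D.i0 + o < y) (h2 : o ≤ D.m0) :
    D.bl σ o = D.a := by
  cases σ with
  | none => rfl
  | some m =>
    have : D.i0 + o ∉ D.H := fun h1 => by have := h _ h1; omega
    simp only [bl, this, if_false]
    rw [if_neg (by omega)]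

lemma bl_mark (m : ℕ) {o : ℕ} (h1 : D.m0 + 1 ≤ o) (h2 : o < 2 * D.m0 + 2) :
    D.bl (some m) o = D.b := by
  have : D.i0 + o ∉ D.H := fun h1 => by have := D.hH _ h1; omega
  simp only [bl, this, if_false]
  rw [if_pos ⟨h1, h2⟩]

lemma bl_sep (σ : Option ℕ) {o : ℕ} (h : o = D.m0 ∨ o = 2 * D.m0 + 2) : D.bl σ o = D.a := by
  cases σ with
  | none => rfl
  | some m =>
    have : D.i0 + o ∉ D.H := fun h1 => by have := D.hH _ h1; omega
    simp only [bl, this, if_false]
    rw [if_neg (by omega)]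

lemma bl_inj {m : ℕ} (hm : m < D.T) {c : ℕ} {j0 : ℕ} (hj : ∀ y ∈ D.H, D.i0 + j0 ≤ y)
    (hj2 : j0 ≤ D.m0) (h : ∀ o, j0 ≤ o → o < D.K → D.bl (om D.T c) o = D.bl (some m) o) :
    om D.T c = some m := by
  cases hσ : om D.T c with
  | none =>
    have h1 := h (D.m0 + 1) (by omega) (by unfold K; omega)
    rw [hσ, bl_mark _ _ le_rfl (by omega)] at h1
    exact absurd h1 D.hab
  | some m' =>
    congr 1
    refine D.hφ m' (om_lt _ _ _ hσ) m hm (fun y hy => ?_)
    have h0 := D.hH y hy
    have h2 := hj y hy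
    have h1 := h (y - D.i0) (by omega) (by unfold K; omega)
    have e : D.i0 + (y - D.i0) = y := by omega
    rw [hσ] at h1
    simpa [bl, e, hy] using h1

/-- the root of a square: period `P` blocks, starting at `i` -/
def rt (m P i : ℕ) : List A := (List.range (P * D.K)).map (fun t => D.F m (i + t))

lemma rt_len (m P i : ℕ) : (D.rt m P i).length = P * D.K := by simp [rt]

lemma rt_get {m P i : ℕ} (hi : D.i0 ≤ i) (hj : ∀ y ∈ D.H, i ≤ y) (hj2 : i ≤ D.i0 + D.m0)
    (hP : ∀ t < P, gg D.T m (t + P) = gg D.T m t) {t : ℕ} (ht : t < 2 * (P * D.K)) :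
    (D.rt m P i ++ D.rt m P i)[t]? = some (D.F m (i + t)) := by
  by_cases h1 : t < P * D.K
  · rw [List.getElem?_append_left (by rw [rt_len]; exact h1)]
    simp [rt, h1]
  · rw [List.getElem?_append_right (by rw [rt_len]; omega), rt_len]
    obtain ⟨s, rfl⟩ : ∃ s, t = s + P * D.K := ⟨t - P * D.K, by omega⟩
    have hs : s < P * D.K := by omega
    simp only [rt, Nat.add_sub_cancel, List.getElem?_map, List.getElem?_range hs, Option.map_some]
    congr 1
    obtain ⟨c, o, ho, he⟩ := D.decomp (y := i + s) (by omega)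
    have e2 : i + (s + P * D.K) = D.i0 + ((c + P) * D.K + o) := by
      rw [add_mul]; omega
    rw [e2, he, F_eq _ _ _ _ ho, F_eq _ _ _ _ ho]
    by_cases hc : c < P
    · rw [hP c hc]
    · have h3 : P * D.K ≤ c * D.K := Nat.mul_le_mul_right _ (by omega)
      rw [bl_low _ _ (fun y hy => by have := hj y hy; omega) (by omega),
        bl_low _ _ (fun y hy => by have := hj y hy; omega) (by omega)]

lemma rt_mem {m P i n : ℕ} (hm : m < D.T) (hi : D.i0 ≤ i) (hj : ∀ y ∈ D.H, i ≤ y)
    (hj2 : i ≤ D.i0 + D.m0) (hP : ∀ t < P, gg D.T m (t + P) = gg D.T m t)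
    (hP1 : 2 * len m + 1 ≤ P) (hn : i + 2 * (P * D.K) ≤ n) : D.rt m P i ∈ Sset (D.w n) i := by
  have hK := D.K_pos
  have hKe : D.K = 2 * D.m0 + 3 := rfl
  have hPK : D.K ≤ P * D.K := Nat.le_mul_of_pos_left _ (by omega)
  refine ⟨?_, ⟨by rw [rt_len, w_len]; exact hn, fun j c hj1 hc => ?_⟩, ?_⟩
  · intro h
    have := D.rt_len m P i
    rw [h] at this
    simp at this
    omega
  · rw [rt_len] at hj1
    rw [D.rt_get hi hj hj2 hP hj1]
    rw [D.w_get (by omega)] at hc
    unfold W at hc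
    split_ifs at hc with h
    · simp at hc
    · rw [D.F_indep m 0 h]
      simpa using hc
  · rintro i' hi' ⟨hl, hoc⟩
    rw [rt_len, w_len] at hl
    rw [rt_len] at hoc
    have key : ∀ t < 2 * (P * D.K), D.i0 + D.m0 ≤ i' + t → D.F 0 (i' + t) = D.F m (i + t) := by
      intro t ht h1
      have hnH : i' + t ∉ D.H := fun h => by have := D.hH _ h; omega
      have h2 := hoc t (D.F 0 (i' + t)) ht (by
        rw [D.w_get (by omega)]; simp [W, hnH])
      rw [D.rt_get hi hj hj2 hP ht] at h2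
      exact (Option.some.inj h2).symm
    have hb : ∀ u, u ≤ D.m0 → D.F 0 (i' + (D.i0 + D.m0 + 1 - i) + u) = D.b := by
      intro u hu
      rw [add_assoc, key _ (by omega) (by omega)]
      have := D.F_eq m 0 (D.m0 + 1 + u) (by omega)
      rw [show i + (D.i0 + D.m0 + 1 - i + u) = D.i0 + (0 * D.K + (D.m0 + 1 + u)) by omega, this]
      simp only [gg, if_pos]
      exact D.bl_mark _ (by omega) (by omega)
    obtain ⟨c, o, ho, he⟩ := D.decomp (y := i' + (D.i0 + D.m0 + 1 - i)) (by omega)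
    have ho1 : o = D.m0 + 1 := by
      by_contra hne
      by_cases h1 : o ≤ D.m0
      · have := hb (D.m0 - o) (by omega)
        rw [he, show D.i0 + (c * D.K + o) + (D.m0 - o) = D.i0 + (c * D.K + D.m0) by omega,
          F_eq _ _ _ _ (by omega), bl_sep _ _ (Or.inl rfl)] at this
        exact D.hab this
      · have := hb (2 * D.m0 + 2 - o) (by omega)
        rw [he, show D.i0 + (c * D.K + o) + (2 * D.m0 + 2 - o) =
          D.i0 + (c * D.K + (2 * D.m0 + 2)) by omega,
          F_eq _ _ _ _ (by omega), bl_sep _ _ (Or.inr rfl)] at this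
        exact D.hab this
    have hc0 : 0 < c := by
      rcases Nat.eq_zero_or_pos c with h | h
      · subst h; omega
      · exact h
    have hcK : D.K ≤ c * D.K := Nat.le_mul_of_pos_left _ hc0
    have hblock : ∀ s, s ≤ 3 * len m + 2 → gg D.T m s = some m → om D.T (c + s) = some m := by
      intro s hs hg
      refine D.bl_inj hm (j0 := i - D.i0) (fun y hy => by have := hj y hy; omega) (by omega)
        (fun o' h1 h2 => ?_)
      have hlen := len_pos m
      have h3 : (s + 1) * D.K ≤ (2 * P) * D.K := Nat.mul_le_mul_right _ (by omega)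
      rw [add_mul, mul_assoc] at h3
      have h4 := key (s * D.K + o' - (i - D.i0)) (by omega) (by omega)
      rw [show i' + (s * D.K + o' - (i - D.i0)) = D.i0 + ((c + s) * D.K + o') by
          rw [add_mul]; omega,
        show i + (s * D.K + o' - (i - D.i0)) = D.i0 + (s * D.K + o') by omega,
        F_eq _ _ _ _ h2, F_eq _ _ _ _ h2, hg] at h4
      rw [← h4]
      unfold gg
      rw [if_neg (by omega)]
    obtain ⟨g1, g2, g3⟩ := gg_heads hm
    exact om_no_later hm (hblock 0 (by omega) (by simp [gg])) (hblock _ (by omega) g1)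
      (hblock _ (by omega) g2) (hblock _ (by omega) g3)

lemma two_mul_le_Sq [Finite A] {i n : ℕ} (hi : D.i0 ≤ i) (hj : ∀ y ∈ D.H, i ≤ y)
    (hj2 : i ≤ D.i0 + D.m0) (hn : D.i0 + 2 * 6 ^ D.T * D.K ≤ n) : 2 * D.T ≤ Sq (D.w n) i := by
  classical
  have hK := D.K_pos
  have hKe : D.K = 2 * D.m0 + 3 := rfl
  let per : Fin D.T × Bool → ℕ := fun z => if z.2 then 2 * len z.1 + 1 else 3 * len z.1 + 2
  have hper : ∀ z : Fin D.T × Bool, ∀ t < per z, gg D.T z.1 (t + per z) = gg D.T z.1 t := by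
    rintro ⟨m, _ | _⟩ t ht
    · exact gg_perV m.2 ht
    · exact gg_perU m.2 ht
  have hper1 : ∀ z : Fin D.T × Bool, 2 * len z.1 + 1 ≤ per z ∧ per z ≤ 3 * len z.1 + 2 := by
    rintro ⟨m, _ | _⟩ <;> simp [per] <;> omega
  have hmem : ∀ z : Fin D.T × Bool, D.rt z.1 (per z) i ∈ Sset (D.w n) i := by
    intro z
    refine D.rt_mem z.1.2 hi hj hj2 (hper z) (hper1 z).1 ?_
    have h1 : len (z.1 + 1) ≤ len D.T := len_mono z.1.2
    have h2 := len_bound D.T
    have h3 := (hper1 z).2
    simp only [len] at h1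
    have h4 : (2 * per z + 1) * D.K ≤ 2 * 6 ^ D.T * D.K := Nat.mul_le_mul_right _ (by omega)
    rw [add_mul, mul_assoc] at h4
    omega
  have hinj : Function.Injective (fun z : Fin D.T × Bool => D.rt z.1 (per z) i) := by
    intro z z' h
    simp only at h
    have hPK : ∀ z : Fin D.T × Bool, D.K ≤ per z * D.K := fun z =>
      Nat.le_mul_of_pos_left _ (by have := (hper1 z).1; omega)
    have e1 : z.1 = z'.1 := by
      apply Fin.ext
      refine D.hφ _ z.1.2 _ z'.1.2 (fun y hy => ?_)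
      have h0 := D.hH y hy
      have h1 := hj y hy
      have a1 := D.rt_get hi hj hj2 (hper z) (t := y - i) (by have := hPK z; omega)
      have a2 := D.rt_get hi hj hj2 (hper z') (t := y - i) (by have := hPK z'; omega)
      rw [h, a2, show i + (y - i) = y by omega, D.F_hole _ hy, D.F_hole _ hy] at a1
      exact (Option.some.inj a1).symm
    have e2 : per z = per z' := by
      have := congrArg List.length h
      rw [rt_len, rt_len] at this
      exact Nat.eq_of_mul_eq_mul_right hK this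
    obtain ⟨m, u⟩ := z
    obtain ⟨m', u'⟩ := z'
    simp only at e1
    subst e1
    cases u <;> cases u' <;> simp [per] at e2 ⊢ <;> omega
  have h1 : (Set.range (fun z : Fin D.T × Bool => D.rt z.1 (per z) i)).ncard ≤ Sq (D.w n) i :=
    Set.ncard_le_ncard (by rintro _ ⟨z, rfl⟩; exact hmem z) (Sset_finite _ _)
  rw [Set.ncard_range_of_injective hinj] at h1
  simpa [mul_comm] using h1

end Dat

theorem attained [Fintype A] (hk : 2 ≤ Fintype.card A) (H : Finset ℕ) (i0 m n : ℕ)
    (hH : ∀ y ∈ H, i0 ≤ y ∧ y < i0 + m) (hne : H.Nonempty)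
    (hn : i0 + 2 * 6 ^ (Fintype.card A ^ H.card) * (2 * m + 3) ≤ n) :
    ∃ w : List (Option A), w.length = n ∧ holes w = ↑H ∧
      ∀ i, i0 ≤ i → (Sq w i = 2 * Fintype.card A ^ H.card ↔ ∀ y ∈ H, i ≤ y) := by
  classical
  obtain ⟨a, b, hab⟩ := Fintype.exists_pair_of_one_lt_card (α := A) (by omega)
  have hc : Fintype.card (H → A) = Fintype.card A ^ H.card := by simp
  let e : (H → A) ≃ Fin (Fintype.card A ^ H.card) := Fintype.equivFinOfCardEq hc
  let D : Dat A :=
    { a := a, b := b, hab := hab, H := H, i0 := i0, m0 := m, hH := hH,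
      T := Fintype.card A ^ H.card,
      φ := fun s y => if hs : s < Fintype.card A ^ H.card then ext H a (e.symm ⟨s, hs⟩) y else a,
      hφ := by
        intro s hs s' hs' h
        have : e.symm ⟨s, hs⟩ = e.symm ⟨s', hs'⟩ := by
          funext y
          have := h y.1 y.2
          simpa [hs, hs', ext, y.2] using this
        exact congrArg Fin.val (e.symm.injective this) }
  have hpos : 1 ≤ 6 ^ (Fintype.card A ^ H.card) := Nat.one_le_pow _ _ (by norm_num)
  have hn' : i0 + m ≤ n := by nlinarith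
  have hh : holes (D.w n) = ↑H := D.holes_w hn'
  refine ⟨D.w n, D.w_len n, hh, fun i hi => ⟨fun h y hy => le_of_extremal hh hk h hy, fun h => ?_⟩⟩
  refine le_antisymm (Sq_le hh i a) ?_
  obtain ⟨y, hy⟩ := hne
  have h1 := h y hy
  have h2 := hH y hy
  exact D.two_mul_le_Sq hi h (by show i ≤ i0 + m; omega) hn

end Pool.Agent.Lib.MP_922422_co
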