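import Mathlib

/-! Few periods in a short window. -/

namespace Pool.Agent.Lib.MP_922422_co

open Finset

variable {A : Type}

lemma exists_clean (H : Finset ℕ) (L Δ : ℕ) (hL : (H.card + 1) * (3 * Δ + 1) ≤ L) :
    ∃ t0, t0 + (3 * Δ + 1) ≤ L ∧ ∀ y ∈ H, ¬ (t0 ≤ y ∧ y ≤ t0 + 3 * Δ) ∧
      ¬ (L + t0 ≤ y ∧ y ≤ L + t0 + 3 * Δ) := by
  classical
  let c : ℕ → ℕ := fun y => if y < L then y / (3 * Δ + 1) else (y - L) / (3 * Δ + 1)
  have hlt : (H.image c).card < (range (H.card + 1)).card := by
    rw [card_range]; exact Nat.lt_succ_of_le card_image_le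
  obtain ⟨q, hq, hq2⟩ := exists_mem_notMem_of_card_lt_card hlt
  rw [mem_range] at hq
  have h1 : (q + 1) * (3 * Δ + 1) ≤ (H.card + 1) * (3 * Δ + 1) := Nat.mul_le_mul_right _ (by omega)
  rw [add_mul, one_mul] at h1
  have hdiv : ∀ z, q * (3 * Δ + 1) ≤ z → z ≤ q * (3 * Δ + 1) + 3 * Δ → z / (3 * Δ + 1) = q := by
    intro z h2 h3
    apply Nat.div_eq_of_lt_le h2
    rw [add_mul]; omega
  refine ⟨q * (3 * Δ + 1), by omega, fun y hy => ⟨fun h => hq2 ?_, fun h => hq2 ?_⟩⟩
  · refine mem_image.2 ⟨y, hy, ?_⟩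
    simp only [c]
    rw [if_pos (by omega)]
    exact hdiv y h.1 h.2
  · refine mem_image.2 ⟨y, hy, ?_⟩
    simp only [c]
    rw [if_neg (by omega)]
    exact hdiv _ (by omega) (by omega)

lemma exists_pi (val : ℕ → A) (O : Finset ℕ) (t0 Δ d : ℕ) (hd : d ∈ O) (hd0 : 0 < d)
    (hO : ∀ o ∈ O, o ≤ Δ)
    (hper : ∀ o ∈ O, ∀ j, t0 ≤ j → j + o ≤ t0 + 2 * Δ → val (j + o) = val j) :
    ∃ π : ℕ → A, (∀ o ∈ O, ∀ t, π (t + o) = π t) ∧
      ∀ t, t0 ≤ t → t ≤ t0 + 2 * Δ → π t = val t := by
  have hmod : ∀ v, v ≤ 2 * Δ → val (t0 + v % d) = val (t0 + v) := by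
    intro v
    induction v using Nat.strong_induction_on with
    | _ v ih =>
      intro hv
      by_cases h : v < d
      · rw [Nat.mod_eq_of_lt h]
      · obtain ⟨u, rfl⟩ : ∃ u, v = u + d := ⟨v - d, by omega⟩
        rw [Nat.add_mod_right, ih u (by omega) (by omega), ← add_assoc,
          hper d hd _ (by omega) (by omega)]
  obtain ⟨e, rfl⟩ : ∃ e, d = e + 1 := ⟨d - 1, by omega⟩
  refine ⟨fun t => val (t0 + (t + e * t0) % (e + 1)), fun o ho t => ?_, fun t h1 h2 => ?_⟩
  · have h1 := hO o ho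
    have h2 := hO _ hd
    have h3 : (t + e * t0) % (e + 1) < e + 1 := Nat.mod_lt _ hd0
    show val (t0 + (t + o + e * t0) % (e + 1)) = val (t0 + (t + e * t0) % (e + 1))
    rw [show t + o + e * t0 = t + e * t0 + o by ring, ← Nat.mod_add_mod,
      hmod _ (by omega), ← add_assoc, hper o ho _ (by omega) (by omega)]
  · obtain ⟨v, rfl⟩ : ∃ v, t = t0 + v := ⟨t - t0, by omega⟩
    show val (t0 + (t0 + v + e * t0) % (e + 1)) = val (t0 + v)
    rw [show t0 + v + e * t0 = v + (e + 1) * t0 by ring, Nat.add_mul_mod_self_left,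
      hmod _ (by omega)]

/-- The window lemma. -/
lemma window (val : ℕ → A) (H P : Finset ℕ) (f : ℕ → ℕ → A) (L Δ : ℕ)
    (hL : (H.card + 1) * (3 * Δ + 1) ≤ L) (hP : ∀ p ∈ P, L ≤ p ∧ p ≤ L + Δ)
    (hsplit : ∀ p ∈ P, ∀ p' ∈ P, ∀ y ∈ H, y < p → y < p')
    (hcov : ∀ p ∈ P, ∀ y ∈ H, y < 2 * p)
    (hnp : ∀ p ∈ P, ∀ j < p, j ∈ H → j + p ∉ H)
    (hper : ∀ p ∈ P, ∀ j < p, f p (j + p) = f p j)
    (hval : ∀ p ∈ P, ∀ y < 2 * p, y ∉ H → f p y = val y)
    (htwo : ∀ ψ : ℕ → A, ∀ Q ⊆ P, (∀ p ∈ Q, ∀ y ∈ H, f p y = ψ y) → Q.card ≤ 2) :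
    P.card ≤ 2 * H.card + 3 := by
  classical
  by_contra hc
  push Not at hc
  have hne : P.Nonempty := card_pos.1 (by omega)
  obtain ⟨p1, hp1, hmin⟩ := exists_min_image P id hne
  simp only [id] at hmin
  obtain ⟨p2, hp2, hp21⟩ := exists_mem_ne (by omega : 1 < P.card) p1
  obtain ⟨t0, ht0, hcl⟩ := exists_clean H L Δ hL
  have hR : ∀ p ∈ P, ∀ j < p, j ∉ H → j + p ∉ H → val (j + p) = val j := by
    intro p hp j hj h1 h2
    rw [← hval p hp _ (by omega) h2, hper p hp j hj, hval p hp _ (by omega) h1]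
  have hI1 : ∀ j, t0 ≤ j → j ≤ t0 + 2 * Δ → j ∉ H := fun j h1 h2 h => (hcl j h).1 ⟨h1, by omega⟩
  have hI2 : ∀ p ∈ P, ∀ j, t0 ≤ j → j ≤ t0 + 2 * Δ → j + p ∉ H := fun p hp j h1 h2 h => by
    have := hP p hp
    exact (hcl _ h).2 ⟨by omega, by omega⟩
  have hL1 := hP p1 hp1
  obtain ⟨π, hπ1, hπ2⟩ := exists_pi val (P.image (fun p => p - p1)) t0 Δ (p2 - p1)
    (mem_image.2 ⟨p2, hp2, rfl⟩) (by have := hmin p2 hp2; omega)
    (fun o ho => by
      obtain ⟨p, hp, rfl⟩ := mem_image.1 ho
      have := hP p hp; omega)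
    (fun o ho j h1 h2 => by
      obtain ⟨p, hp, rfl⟩ := mem_image.1 ho
      have a1 := hP p hp
      have a2 := hmin p hp
      rw [← hR p hp j (by omega) (hI1 j h1 (by omega)) (hI2 p hp j h1 (by omega)),
        ← hR p1 hp1 (j + (p - p1)) (by omega) (hI1 _ (by omega) h2) (hI2 p1 hp1 _ (by omega) h2)]
      congr 1; omega)
  have hπ : ∀ p ∈ P, ∀ t, π (t + (p - p1)) = π t := fun p hp t =>
    hπ1 _ (mem_image.2 ⟨p, hp, rfl⟩) t
  let D : ℕ → Prop := fun j => j ∉ H ∧ val j ≠ π j
  let B : ℕ → Prop := fun t => t + p1 ∉ H ∧ val (t + p1) ≠ π t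
  have hDB : ∀ p ∈ P, ∀ j < p1, D j → j + p ∉ H → B (j + (p - p1)) := by
    intro p hp j hj hD h
    have a2 := hmin p hp
    have e : j + (p - p1) + p1 = j + p := by omega
    refine ⟨by rw [e]; exact h, ?_⟩
    rw [e, hR p hp j (by omega) hD.1 h, hπ p hp]
    exact hD.2
  have hBD : ∀ p ∈ P, ∀ j < p1, B (j + (p - p1)) → j ∉ H → D j := by
    intro p hp j hj hB h
    have a2 := hmin p hp
    have e : j + (p - p1) + p1 = j + p := by omega
    obtain ⟨b1, b2⟩ := hB
    rw [e] at b1 b2
    refine ⟨h, ?_⟩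
    rw [← hR p hp j (by omega) h b1, ← hπ p hp]
    exact b2
  have hDI : ∀ j, t0 ≤ j → j ≤ t0 + 2 * Δ → ¬ D j := fun j h1 h2 h => h.2 (hπ2 j h1 h2).symm
  have hBI : ∀ j, t0 ≤ j → j ≤ t0 + 2 * Δ → ¬ B j := fun j h1 h2 h => by
    apply h.2
    rw [hR p1 hp1 j (by omega) (hI1 j h1 h2) h.1, hπ2 j h1 h2]
  let E : Finset ℕ := H.image (fun y => if y < p1 then y else y - p1)
  have hE : E.card ≤ H.card := card_image_le
  have hE1 : ∀ j < p1, j ∈ H → j ∈ E := fun j hj h =>
    mem_image.2 ⟨j, h, by simp [hj]⟩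
  have hE2 : ∀ j, j + p1 ∈ H → j ∈ E := fun j h =>
    mem_image.2 ⟨j + p1, h, by simp⟩
  let P1 := P.filter (fun p => ∀ j < p1, t0 + 2 * Δ < j + (p - p1) → ¬ B (j + (p - p1)))
  let P2 := P.filter (fun p => ∀ j < p1, j + (p - p1) < t0 → ¬ B (j + (p - p1)))
  have c1 : (P \ P1).card ≤ H.card + 1 := by
    by_cases hex : ∃ t, t0 + 2 * Δ < t ∧ B t
    · have hb := Nat.find_spec hex
      have hbm : ∀ t, t0 + 2 * Δ < t → B t → Nat.find hex ≤ t := fun t h1 h2 =>
        Nat.find_min' hex ⟨h1, h2⟩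
      generalize Nat.find hex = b at hb hbm
      have : ((P \ P1).erase p1).card ≤ E.card := by
        refine card_le_card_of_injOn (fun p => b - (p - p1)) (fun p hp => ?_) (fun p hp q hq h => ?_)
        · rw [mem_coe, mem_erase, mem_sdiff] at hp
          obtain ⟨hp0, hp, hp'⟩ := hp
          have a1 := hP p hp
          have a2 := hmin p hp
          simp only [P1, mem_filter, hp, true_and] at hp'
          push Not at hp'
          obtain ⟨j, hj, h1, h2⟩ := hp'
          have a3 := hbm _ h1 h2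
          show b - (p - p1) ∈ E
          by_cases h3 : b - (p - p1) ∈ H
          · exact hE1 _ (by omega) h3
          have h4 : D (b - (p - p1)) := hBD p hp _ (by omega)
            (by rw [show b - (p - p1) + (p - p1) = b by omega]; exact hb.2) h3
          by_cases h5 : b - (p - p1) + p1 ∈ H
          · exact hE2 _ h5
          have h6 := hDB p1 hp1 _ (by omega) h4 h5
          rw [Nat.sub_self, add_zero] at h6
          by_cases h7 : t0 + 2 * Δ < b - (p - p1)
          · have := hbm _ h7 h6; omega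
          · exact absurd h4 (hDI _ (by omega) (by omega))
        · rw [mem_coe, mem_erase, mem_sdiff] at hp hq
          have a1 := hP p hp.2.1
          have a2 := hmin p hp.2.1
          have a3 := hP q hq.2.1
          have a4 := hmin q hq.2.1
          simp only at h
          omega
      have := pred_card_le_card_erase (s := P \ P1) (a := p1)
      omega
    · have : P \ P1 = ∅ := by
        rw [sdiff_eq_empty_iff_subset]
        intro p hp
        exact mem_filter.2 ⟨hp, fun j _ h1 h2 => hex ⟨_, h1, h2⟩⟩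
      rw [this]; simp
  have c1' : P.card ≤ P1.card + (H.card + 1) := by
    have : (P \ P1).card + P1.card = P.card := card_sdiff_add_card_eq_card (filter_subset _ P)
    omega
  have hDr : ∀ j < p1, t0 + 2 * Δ < j → ¬ D j := by
    intro j hj h1 hD
    have : P1.card ≤ H.card := by
      refine card_le_card_of_injOn (fun p => j + p) (fun p hp => ?_) (fun p _ q _ h => by
        simpa using h)
      rw [mem_coe, mem_filter] at hp
      by_contra h
      exact hp.2 j hj (by omega) (hDB p hp.1 j hj hD h)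
    omega
  have hDl : ∀ j < t0, ¬ D j := by
    by_contra hex
    push Not at hex
    obtain ⟨j0, hj0, hD0⟩ := hex
    obtain ⟨d', hd', hdm⟩ := exists_max_image ((range t0).filter D) id
      ⟨j0, mem_filter.2 ⟨mem_range.2 hj0, hD0⟩⟩
    rw [mem_filter, mem_range] at hd'
    have : (P.erase p1).card ≤ E.card := by
      refine card_le_card_of_injOn (fun p => d' + (p - p1)) (fun p hp => ?_) (fun p hp q hq h => ?_)
      · rw [mem_coe, mem_erase] at hp
        obtain ⟨hp0, hp⟩ := hp
        have a1 := hP p hp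
        have a2 := hmin p hp
        show d' + (p - p1) ∈ E
        by_cases h3 : d' + p ∈ H
        · exact hE2 _ (by rw [show d' + (p - p1) + p1 = d' + p by omega]; exact h3)
        have h4 := hDB p hp d' (by omega) hd'.2 h3
        by_cases h5 : d' + (p - p1) ∈ H
        · exact hE1 _ (by omega) h5
        have h6 : D (d' + (p - p1)) := hBD p1 hp1 _ (by omega)
          (by rw [Nat.sub_self, add_zero]; exact h4) h5
        by_cases h7 : d' + (p - p1) < t0
        · have := hdm _ (mem_filter.2 ⟨mem_range.2 h7, h6⟩)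
          simp only [id] at this
          omega
        · exact absurd h6 (hDI _ (by omega) (by omega))
      · rw [mem_coe, mem_erase] at hp hq
        have a2 := hmin p hp.2
        have a4 := hmin q hq.2
        simp only at h
        omega
    have := pred_card_le_card_erase (s := P) (a := p1)
    omega
  have c2 : (P \ P2).card ≤ H.card := by
    by_cases hex : ((range t0).filter B).Nonempty
    · obtain ⟨b, hb, hbm⟩ := exists_max_image _ id hex
      rw [mem_filter, mem_range] at hb
      have hle : ∀ p ∈ P \ P2, p - p1 ≤ b := by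
        intro p hp
        rw [mem_sdiff] at hp
        obtain ⟨hp, hp'⟩ := hp
        simp only [P2, mem_filter, hp, true_and] at hp'
        push Not at hp'
        obtain ⟨j, hj, h1, h2⟩ := hp'
        have := hbm _ (mem_filter.2 ⟨mem_range.2 h1, h2⟩)
        simp only [id] at this
        omega
      refine card_le_card_of_injOn (fun p => b - (p - p1)) (fun p hp => ?_) (fun p hp q hq h => ?_)
      · have a0 := hle p hp
        rw [mem_coe, mem_sdiff] at hp
        show b - (p - p1) ∈ H
        by_contra h3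
        exact hDl _ (by omega) (hBD p hp.1 _ (by omega)
          (by rw [show b - (p - p1) + (p - p1) = b by omega]; exact hb.2) h3)
      · have a0 := hle p hp
        have a1 := hle q hq
        rw [mem_coe, mem_sdiff] at hp hq
        have a2 := hmin p hp.1
        have a4 := hmin q hq.1
        simp only at h
        omega
    · have : P \ P2 = ∅ := by
        rw [sdiff_eq_empty_iff_subset]
        intro p hp
        exact mem_filter.2 ⟨hp, fun j _ h1 h2 => hex ⟨_, mem_filter.2 ⟨mem_range.2 h1, h2⟩⟩⟩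
      rw [this]; simp
  have hD : ∀ j < p1, ¬ D j := by
    intro j hj
    by_cases h1 : j < t0
    · exact hDl j h1
    by_cases h2 : t0 + 2 * Δ < j
    · exact hDr j hj h2
    · exact hDI j (by omega) (by omega)
  have hQ := htwo (fun y => if y < p1 then π y else π (y - p1)) (P1 ∩ P2)
    (fun p hp => (mem_filter.1 (mem_inter.1 hp).1).1) (fun p hp y hy => by
      obtain ⟨q1, q2⟩ := mem_inter.1 hp
      obtain ⟨hp, q1⟩ := mem_filter.1 q1
      have q2 := (mem_filter.1 q2).2
      have a2 := hmin p hp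
      show f p y = if y < p1 then π y else π (y - p1)
      split_ifs with h
      · have h1 := hnp p hp y (by omega) hy
        have hB : ¬ B (y + (p - p1)) := by
          by_cases h2 : y + (p - p1) < t0
          · exact q2 y h h2
          by_cases h3 : t0 + 2 * Δ < y + (p - p1)
          · exact q1 y h h3
          · exact hBI _ (by omega) (by omega)
        have e : y + (p - p1) + p1 = y + p := by omega
        rw [← hper p hp y (by omega), hval p hp _ (by omega) h1, ← hπ p hp y]
        by_contra h4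
        exact hB ⟨by rw [e]; exact h1, by rw [e]; exact h4⟩
      · have h1 : p ≤ y := by
          by_contra h2
          exact h (hsplit p hp p1 hp1 y hy (by omega))
        have h2 := hcov p1 hp1 y hy
        obtain ⟨j, rfl⟩ : ∃ j, y = j + p := ⟨y - p, by omega⟩
        have h3 : j ∉ H := fun h4 => hnp p hp j (by omega) h4 hy
        rw [hper p hp j (by omega), hval p hp j (by omega) h3,
          show j + p - p1 = j + (p - p1) by omega, hπ p hp]
        by_contra h4
        exact hD j (by omega) ⟨h3, h4⟩)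
  have c3 : P1.card ≤ (P1 ∩ P2).card + (P \ P2).card := by
    have h1 := card_sdiff_add_card_inter P1 P2
    have h2 : (P1 \ P2).card ≤ (P \ P2).card :=
      card_le_card (sdiff_subset_sdiff (filter_subset _ _) subset_rfl)
    omega
  omega

end Pool.Agent.Lib.MP_922422_co
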