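import Pool.Agent.Lib.MP_922422_co.Basic
import Pool.Agent.Lib.MP_922422_co.Window

/-! Extremal positions force very long words. -/

namespace Pool.Agent.Lib.MP_922422_co

open Finset

variable {A : Type}

/-- hypotheses on a family of periods -/
structure Good (val : ℕ → A) (H P : Finset ℕ) (f : ℕ → ℕ → A) : Prop where
  cov : ∀ p ∈ P, ∀ y ∈ H, y < 2 * p
  np : ∀ p ∈ P, ∀ j < p, j ∈ H → j + p ∉ H
  per : ∀ p ∈ P, ∀ j < p, f p (j + p) = f p j
  vl : ∀ p ∈ P, ∀ y < 2 * p, y ∉ H → f p y = val y
  two : ∀ ψ : ℕ → A, ∀ Q ⊆ P, (∀ p ∈ Q, ∀ y ∈ H, f p y = ψ y) → Q.card ≤ 2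

lemma Good.scale {val : ℕ → A} {H P : Finset ℕ} {f : ℕ → ℕ → A} (G : Good val H P f) (L : ℕ) :
    (P.filter (fun p => L ≤ p ∧ p < 2 * L)).card ≤ 21 * (H.card + 1) ^ 2 := by
  classical
  by_cases hL : L < H.card + 1
  · have : P.filter (fun p => L ≤ p ∧ p < 2 * L) ⊆ Ico L (2 * L) := fun p hp =>
      mem_Ico.2 (mem_filter.1 hp).2
    have h1 := card_le_card this
    rw [Nat.card_Ico, show 2 * L - L = L by omega] at h1
    nlinarith
  push Not at hL
  obtain ⟨q, hq⟩ : ∃ q, q = L / (H.card + 1) := ⟨_, rfl⟩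
  have hq1 : 1 ≤ q := by rw [hq]; exact (Nat.one_le_div_iff (by omega)).2 hL
  have hq2 : (H.card + 1) * q ≤ L := by rw [hq]; exact Nat.mul_div_le _ _
  have hq3 : L < (H.card + 1) * (q + 1) := by rw [hq]; exact Nat.lt_mul_div_succ _ (by omega)
  obtain ⟨Δ, hΔ⟩ : ∃ Δ, Δ = (q - 1) / 3 := ⟨_, rfl⟩
  have h1 : (H.card + 1) * (3 * Δ + 1) ≤ L :=
    (Nat.mul_le_mul_left _ (by omega)).trans hq2
  have h2 : L ≤ (Δ + 1) * (6 * (H.card + 1)) := by
    have : (H.card + 1) * (q + 1) ≤ (H.card + 1) * (6 * (Δ + 1)) := Nat.mul_le_mul_left _ (by omega)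
    nlinarith
  let c1 : ℕ → ℕ := fun p => (p - L) / (Δ + 1)
  let c2 : ℕ → ℕ := fun p => (H.filter (fun y => y < p)).card
  have m1 : ∀ p p', p ≤ p' → c1 p ≤ c1 p' := fun p p' h => Nat.div_le_div_right (by omega)
  have m2 : ∀ p p', p ≤ p' → c2 p ≤ c2 p' := fun p p' h =>
    card_le_card (fun y hy => mem_filter.2 ⟨(mem_filter.1 hy).1, by
      have := (mem_filter.1 hy).2; omega⟩)
  have hb := card_le_mul_card_image_of_maps_to (s := P.filter (fun p => L ≤ p ∧ p < 2 * L))
    (t := range (7 * (H.card + 1))) (f := fun p => c1 p + c2 p) (fun p hp => by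
      have a := (mem_filter.1 hp).2
      have b1 : c1 p < 6 * (H.card + 1) := Nat.div_lt_of_lt_mul (by omega)
      have b2 : c2 p ≤ H.card := card_filter_le _ _
      rw [mem_range]; omega) (2 * H.card + 3) (fun v _ => by
      set Q := (P.filter (fun p => L ≤ p ∧ p < 2 * L)).filter (fun p => c1 p + c2 p = v) with hQ
      have hsub : Q ⊆ P := fun p hp => (mem_filter.1 (mem_filter.1 hp).1).1
      have heq : ∀ p ∈ Q, ∀ p' ∈ Q, c1 p = c1 p' ∧ c2 p = c2 p' := by
        intro p hp p' hp'
        have a := (mem_filter.1 hp).2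
        have b := (mem_filter.1 hp').2
        rcases le_total p p' with h | h
        · have := m1 _ _ h; have := m2 _ _ h; omega
        · have := m1 _ _ h; have := m2 _ _ h; omega
      rcases Q.eq_empty_or_nonempty with h | ⟨p0, hp0⟩
      · rw [h]; simp
      refine window val H Q f (L + (Δ + 1) * c1 p0) Δ (by omega) (fun p hp => ?_)
        (fun p hp p' hp' y hy hyp => ?_) (fun p hp => G.cov p (hsub hp))
        (fun p hp => G.np p (hsub hp)) (fun p hp => G.per p (hsub hp))
        (fun p hp => G.vl p (hsub hp)) (fun ψ R hR => G.two ψ R (hR.trans hsub))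
      · rw [← (heq p hp p0 hp0).1]
        have a := (mem_filter.1 (mem_filter.1 hp).1).2
        have b1 := Nat.div_add_mod (p - L) (Δ + 1)
        have b2 := Nat.mod_lt (p - L) (show 0 < Δ + 1 by omega)
        simp only [c1]
        omega
      · by_contra hn
        have e := (heq p hp p' hp').2
        have : c2 p' < c2 p := by
          apply card_lt_card
          refine ⟨fun z hz => mem_filter.2 ⟨(mem_filter.1 hz).1, by
            have := (mem_filter.1 hz).2; omega⟩, fun h => ?_⟩
          have := (mem_filter.1 (h (mem_filter.2 ⟨hy, hyp⟩))).2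
          exact hn this
        omega)
  rw [card_range] at hb
  nlinarith

lemma Good.total {val : ℕ → A} {H P : Finset ℕ} {f : ℕ → ℕ → A} (G : Good val H P f) (L s : ℕ) :
    (P.filter (fun p => L ≤ p ∧ p < L * 2 ^ s)).card ≤ s * (21 * (H.card + 1) ^ 2) := by
  classical
  induction s with
  | zero =>
    rw [filter_eq_empty_iff.2 (fun p _ => by omega)]; simp
  | succ s ih =>
    have h1 := G.scale (L * 2 ^ s)
    have : P.filter (fun p => L ≤ p ∧ p < L * 2 ^ (s + 1)) ⊆
        P.filter (fun p => L ≤ p ∧ p < L * 2 ^ s) ∪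
        P.filter (fun p => L * 2 ^ s ≤ p ∧ p < 2 * (L * 2 ^ s)) := by
      intro p hp
      obtain ⟨a, b, c⟩ := mem_filter.1 hp
      rw [pow_succ, ← mul_assoc] at c
      by_cases h : p < L * 2 ^ s
      · exact mem_union_left _ (mem_filter.2 ⟨a, b, h⟩)
      · exact mem_union_right _ (mem_filter.2 ⟨a, by omega, by omega⟩)
    have h2 := (card_le_card this).trans (card_union_le _ _)
    rw [add_mul]
    omega

lemma choose_bound (h : ℕ) : 8 * h.choose 2 ≤ 15 * 2 ^ (h - h / 2) := by
  induction h using Nat.strong_induction_on with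
  | _ h ih =>
    by_cases h8 : h < 8
    · interval_cases h <;> decide
    obtain ⟨g, rfl⟩ : ∃ g, h = g + 2 := ⟨h - 2, by omega⟩
    have h1 := ih g (by omega)
    rw [show g + 2 - (g + 2) / 2 = (g - g / 2) + 1 by omega, pow_succ]
    have h2 : (g + 2).choose 2 = g.choose 2 + (2 * g + 1) := by
      rw [Nat.choose_succ_succ' (g + 1), Nat.choose_succ_succ' g 1]
      simp; ring
    have h3 : 2 * g + 1 ≤ g.choose 2 := by
      obtain ⟨u, rfl⟩ : ∃ u, g = u + 1 := ⟨g - 1, by omega⟩
      rw [Nat.choose_two_right, Nat.le_div_iff_mul_le (by norm_num)]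
      simp only [Nat.add_sub_cancel]
      have : 5 ≤ u := by omega
      nlinarith
    omega

theorem length_bound [Fintype A] (hk : 2 ≤ Fintype.card A) {w : List (Option A)} {H : Finset ℕ}
    (hH : holes w = ↑H) {i : ℕ} (hS : Sq w i = 2 * Fintype.card A ^ H.card) {y : ℕ} (hy : y ∈ H) :
    (y + 1 - i) * 2 ^ (Fintype.card A ^ H.card / (168 * (H.card + 1) ^ 2)) ≤
      2 * (w.length - i) := by
  classical
  obtain ⟨a⟩ : Nonempty A := Fintype.card_pos_iff.1 (by omega)
  set k := Fintype.card A with hkdef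
  have hHi : ∀ z ∈ H, i ≤ z := fun z hz => le_of_extremal hH hk hS hz
  let Hr : Finset ℕ := H.image (fun z => z - i)
  have hHr : Hr.card = H.card := card_image_of_injOn (fun z hz z' hz' h => by
    have := hHi z hz; have := hHi z' hz'; have h' : z - i = z' - i := h; omega)
  have hmem : ∀ j, j ∈ Hr ↔ w[i + j]? = some none := by
    intro j
    have : w[i + j]? = some none ↔ i + j ∈ H := by
      rw [← mem_coe, ← hH]; rfl
    rw [this]
    constructor
    · intro h
      obtain ⟨z, hz, rfl⟩ := mem_image.1 h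
      have := hHi z hz
      rwa [show i + (z - i) = z by omega]
    · intro h
      exact mem_image.2 ⟨i + j, h, by omega⟩
  let S := (Sset_finite w i).toFinset
  have hSm : ∀ x, x ∈ S ↔ x ∈ Sset w i := fun x => Set.Finite.mem_toFinset _
  have hSc : S.card = 2 * k ^ H.card := by
    rw [← hS, Sq_eq, Set.ncard_eq_toFinset_card _ (Sset_finite w i)]
  let val : ℕ → A := fun j => full w (fun _ => a) (i + j)
  have hval : ∀ x ∈ Sset w i, ∀ j < 2 * x.length, j ∉ Hr → rd a x i (i + j) = val j := by
    intro x hx j hj h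
    have hl := hx.2.1.1
    rcases get_cases w (y := i + j) (by omega) with h1 | ⟨c, h1⟩
    · exact absurd ((hmem j).2 h1) h
    · have h2 := hx.2.1.2 j c hj h1
      rw [rd_spec a x i hj] at h2
      simp only [val]
      rw [full_of_some h1]
      exact Option.some.inj h2
  have hper : ∀ x : List A, ∀ j < x.length, rd a x i (i + (j + x.length)) = rd a x i (i + j) := by
    intro x j hj
    have h1 := rd_spec a x i (j := j) (by omega)
    have h2 := rd_spec a x i (j := j + x.length) (by omega)
    rw [sq_shift x hj, h1] at h2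
    exact (Option.some.inj h2).symm
  let J : ℕ → Finset ℕ := fun p => Hr.filter (fun j => j < p ∧ j + p ∈ Hr)
  have hJ : ∀ p, (J p).card ≤ H.card / 2 := by
    intro p
    rw [Nat.le_div_iff_mul_le (by norm_num), ← hHr]
    have hd : Disjoint (J p) ((J p).image (fun j => j + p)) := by
      rw [disjoint_left]
      intro j h1 h2
      obtain ⟨j', _, h3⟩ := mem_image.1 h2
      have := (mem_filter.1 h1).2.1
      omega
    have hs : J p ∪ (J p).image (fun j => j + p) ⊆ Hr := by
      intro j hj
      rcases mem_union.1 hj with h | h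
      · exact (mem_filter.1 h).1
      · obtain ⟨j', h3, rfl⟩ := mem_image.1 h
        exact (mem_filter.1 h3).2.2
    have := card_le_card hs
    rw [card_union_of_disjoint hd, card_image_of_injective _ (add_left_injective p)] at this
    omega
  have hfib : ∀ p, (S.filter (fun x => x.length = p)).card ≤ k ^ (J p).card := by
    intro p
    have : (S.filter (fun x => x.length = p)).card ≤ (univ : Finset (J p → A)).card := by
      refine card_le_card_of_injOn (fun x => fun j : J p => rd a x i (i + j.1))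
        (fun _ _ => mem_univ _) (fun x hx x' hx' h => ?_)
      rw [mem_coe, mem_filter, hSm] at hx hx'
      apply List.ext_getElem?
      intro j
      by_cases hj : j < p
      · have a1 := rd_spec a x i (j := j) (by omega)
        have a2 := rd_spec a x' i (j := j) (by omega)
        rw [List.getElem?_append_left (by omega)] at a1 a2
        rw [a1, a2]
        congr 1
        by_cases h1 : j ∈ Hr
        · by_cases h2 : j + p ∈ Hr
          · exact congrFun h ⟨j, mem_filter.2 ⟨h1, hj, h2⟩⟩
          · rw [← hper x j (by omega), ← hper x' j (by omega), hx.2, hx'.2,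
              hval x hx.1 _ (by omega) h2, hval x' hx'.1 _ (by omega) h2]
        · rw [hval x hx.1 _ (by omega) h1, hval x' hx'.1 _ (by omega) h1]
      · rw [List.getElem?_eq_none (by omega), List.getElem?_eq_none (by omega)]
    simpa using this
  let Pall := S.image List.length
  let P := Pall.filter (fun p => J p = ∅)
  have hex : ∀ p, ∃ x : List A, p ∈ Pall → x ∈ Sset w i ∧ x.length = p := by
    intro p
    by_cases hp : p ∈ Pall
    · obtain ⟨x, hx, h⟩ := mem_image.1 hp
      exact ⟨x, fun _ => ⟨(hSm x).1 hx, h⟩⟩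
    · exact ⟨[], fun h => absurd h hp⟩
  choose X hX using hex
  have hPall : ∀ p ∈ P, p ∈ Pall := fun p hp => (mem_filter.1 hp).1
  have hcov : ∀ p ∈ Pall, ∀ z ∈ H, z < i + 2 * p := fun p hp z hz => by
    have := (cover hH hk hS (hX p hp).1 hz).2
    rwa [(hX p hp).2] at this
  have G : Good val Hr P (fun p j => rd a (X p) i (i + j)) := by
    refine ⟨fun p hp z hz => ?_, fun p hp j hj h1 h2 => ?_, fun p hp j hj => ?_,
      fun p hp j hj h => ?_, fun ψ Q hQ h => ?_⟩
    · obtain ⟨z', hz', rfl⟩ := mem_image.1 hz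
      have := hcov p (hPall p hp) z' hz'
      have := hHi z' hz'
      omega
    · have : j ∈ J p := mem_filter.2 ⟨h1, hj, h2⟩
      rw [(mem_filter.1 hp).2] at this
      exact absurd this (notMem_empty _)
    · have h1 := hX p (hPall p hp)
      have := hper (X p) j (by omega)
      rwa [h1.2] at this
    · have h1 := hX p (hPall p hp)
      exact hval _ h1.1 j (by omega) h
    · have hinj : Set.InjOn X ↑Q := fun p hp q hq e => by
        rw [← (hX p (hPall p (hQ hp))).2, ← (hX q (hPall q (hQ hq))).2, e]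
      rw [← card_image_of_injOn hinj]
      refine card_le_two_of (w := w) (i := i) (ψ := fun z => ψ (z - i)) _ (fun x hx => ?_)
      obtain ⟨p, hp, rfl⟩ := mem_image.1 hx
      refine mem_Tset (hX p (hPall p (hQ hp))).1 (fun j hj hn => ?_)
      rw [rd_spec a _ i hj, show i + j - i = j by omega, ← h p hp j ((hmem j).2 hn)]
  have hcount : S.card ≤ P.card + H.card.choose 2 * k ^ (H.card / 2) := by
    rw [card_eq_sum_card_image List.length S,
      ← sum_filter_add_sum_filter_not (S.image List.length) (fun p => J p = ∅)]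
    apply add_le_add
    · rw [card_eq_sum_ones P]
      refine sum_le_sum (fun p hp => ?_)
      have := hfib p
      rwa [(mem_filter.1 hp).2, card_empty, pow_zero] at this
    · have h1 : ((S.image List.length).filter (fun p => ¬ J p = ∅)).card ≤ H.card.choose 2 := by
        rw [← hHr, ← card_product_filter_lt]
        refine le_trans (card_le_card ?_) (card_image_le (f := fun z : ℕ × ℕ => z.2 - z.1))
        intro p hp
        obtain ⟨hp1, hp2⟩ := mem_filter.1 hp
        obtain ⟨j, hj⟩ := nonempty_iff_ne_empty.2 hp2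
        obtain ⟨a1, a2, a3⟩ := mem_filter.1 hj
        exact mem_image.2 ⟨(j, j + p), mem_filter.2 ⟨mem_product.2 ⟨a1, a3⟩, by
          show j < j + p; omega⟩, by simp⟩
      refine (sum_le_card_nsmul _ _ (k ^ (H.card / 2)) (fun p _ => ?_)).trans ?_
      · exact (hfib p).trans (Nat.pow_le_pow_right (by omega) (hJ p))
      · exact Nat.mul_le_mul_right _ h1
  have hnum : 8 * (H.card.choose 2 * k ^ (H.card / 2)) ≤ 15 * k ^ H.card := by
    have h1 := choose_bound H.card
    have h2 : 2 ^ (H.card - H.card / 2) ≤ k ^ (H.card - H.card / 2) := Nat.pow_le_pow_left hk _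
    have h3 : k ^ H.card = k ^ (H.card - H.card / 2) * k ^ (H.card / 2) := by
      rw [← pow_add]; congr 1; omega
    rw [h3, ← mul_assoc, ← mul_assoc]
    exact Nat.mul_le_mul_right _ (by omega)
  have hP8 : k ^ H.card ≤ 8 * P.card := by omega
  have hrange : ∀ p ∈ P, y + 1 - i ≤ 2 * p ∧ 2 * p ≤ w.length - i := by
    intro p hp
    have h1 := hcov p (hPall p hp) y hy
    have h2 := hX p (hPall p hp)
    have h3 := h2.1.2.1.1
    omega
  have hkpos : 0 < k ^ H.card := by positivity
  by_contra hc
  push Not at hc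
  obtain ⟨e, he⟩ : ∃ e, e = k ^ H.card / (168 * (H.card + 1) ^ 2) := ⟨_, rfl⟩
  rw [← he] at hc
  have he2 : 168 * (H.card + 1) ^ 2 * e ≤ k ^ H.card := by rw [he]; exact Nat.mul_div_le _ _
  cases e with
  | zero =>
    obtain ⟨p, hp⟩ : P.Nonempty := card_pos.1 (by omega)
    have := hrange p hp
    omega
  | succ e =>
    have h1 := G.total ((y + 1 - i + 1) / 2) e
    rw [filter_true_of_mem (fun p hp => by
      have h2 := hrange p hp
      refine ⟨by omega, ?_⟩
      have h3 : (y + 1 - i) * 2 ^ e ≤ (2 * ((y + 1 - i + 1) / 2)) * 2 ^ e :=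
        Nat.mul_le_mul_right _ (by omega)
      rw [pow_succ, ← mul_assoc] at hc
      rw [mul_assoc] at h3
      omega), hHr] at h1
    have h4 : 0 < (H.card + 1) ^ 2 := by positivity
    nlinarith

end Pool.Agent.Lib.MP_922422_co
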