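import Mathlib

/-! Partial words are lists over `Option A`; `none` is the hole symbol. -/

namespace Pool.Agent.Lib.MP_922422_co

/-- The full square `x x` occurs at position `i` of the word `w` with holes. -/
def Occurs {A : Type} (w : List (Option A)) (x : List A) (i : ℕ) : Prop :=
  i + 2 * x.length ≤ w.length ∧
    ∀ (j : ℕ) (c : A), j < 2 * x.length → w[i + j]? = some (some c) → (x ++ x)[j]? = some c

/-- The number of distinct full squares whose rightmost occurrence in `w` begins at `i`. -/
noncomputable def Sq {A : Type} (w : List (Option A)) (i : ℕ) : ℕ :=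
  Set.ncard {x : List A | x ≠ [] ∧ Occurs w x i ∧ ∀ i' : ℕ, i < i' → ¬ Occurs w x i'}

/-- The set of positions of the holes of `w`. -/
def holes {A : Type} (w : List (Option A)) : Set ℕ := {j | w[j]? = some none}

end Pool.Agent.Lib.MP_922422_co
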