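import Pool.Agent.Lib.MP_922422_co.FourStep
import Pool.Agent.Lib.MP_922422_co.Count

/-! Growth by a factor four per filling: the start of the induction. -/

namespace Pool.Agent.Lib.MP_922422_co

open Finset

variable {L : Type}

lemma per_mul {f : ℕ → L} {δ N : ℕ} (h : ∀ s, s + δ < N → f (s + δ) = f s) (j : ℕ) :
    ∀ s, s + δ * j < N → f (s + δ * j) = f s := by
  induction j with
  | zero => intro s _; simp
  | succ j ih =>
    intro s hs
    rw [mul_add, mul_one, ← add_assoc] at hs ⊢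
    rw [h _ hs, ih s (by omega)]

lemma exists_mult {δ m : ℕ} (h0 : 0 < δ) (h : δ ≤ 2 * m) : ∃ j, m ≤ δ * j ∧ δ * j < 3 * m := by
  by_cases h1 : m ≤ δ
  · exact ⟨1, by omega, by omega⟩
  · have h2 := Nat.div_add_mod m δ
    have h3 := Nat.mod_lt m h0
    exact ⟨m / δ + 1, by rw [mul_add]; omega, by rw [mul_add]; omega⟩

namespace Fam

variable {Φ : Type} (D : Fam Φ L)

lemma eq_of_two {b b' c : Φ} {d d' X : ℕ} (hd : D.m ≤ d) (hd' : D.m ≤ d')
    (hX : d + d' + D.m ≤ X + 1)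
    (h : ∀ s, d + s ≤ X → D.W c (d + s) = D.W b s)
    (h' : ∀ s, d' + s ≤ X → D.W c (d' + s) = D.W b' s) : b = b' := by
  refine D.sep b b' (fun y hy => ?_)
  rw [← h y (by omega), ← h' y (by omega), D.agree c b' (d + y) (by omega),
    D.agree c b (d' + y) (by omega), ← h' (d + y) (by omega), ← h (d' + y) (by omega)]
  congr 1; omega

lemma short_per {c c0 : Φ} {d X : ℕ} (hp : 7 * D.m ≤ D.p c) (hq : D.q c ≤ X + 1) (hd0 : 0 < d)
    (hd : d < D.m) (h : ∀ s, D.m ≤ s → s + d ≤ X → D.W c0 (s + d) = D.W c0 s) :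
    ∃ e, D.m ≤ e ∧ e < 3 * D.m ∧ ∀ s, s + e < 7 * D.m → D.W c (s + e) = D.W c s := by
  have hpq := D.pq c
  have hq2 := D.q2 c
  have key : ∃ δ, 0 < δ ∧ δ ≤ 2 * D.m ∧ ∀ s, s + δ < 7 * D.m → D.W c (s + δ) = D.W c s := by
    by_cases h1 : D.q c - D.p c ≤ 2 * D.m
    · refine ⟨D.q c - D.p c, by omega, h1, fun s hs => ?_⟩
      rw [← D.perp c _ (by omega), ← D.perq c s (by omega)]
      congr 1; omega
    · refine ⟨d, hd0, by omega, fun s hs => ?_⟩
      by_cases h2 : D.m ≤ s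
      · rw [D.agree c c0 _ (by omega), D.agree c c0 s h2, h s h2 (by omega)]
      · rw [← D.perp c _ (by omega), ← D.perp c s (by omega), D.agree c c0 _ (by omega),
          D.agree c c0 (s + D.p c) (by omega), ← h (s + D.p c) (by omega) (by omega)]
        congr 1; omega
  obtain ⟨δ, h0, h1, h2⟩ := key
  obtain ⟨j, h3, h4⟩ := exists_mult h0 h1
  exact ⟨δ * j, h3, h4, per_mul h2 j⟩

lemma aperiodic {c1 c2 c0 : Φ} (hne : c1 ≠ c2) {d X : ℕ} (hp1 : 7 * D.m ≤ D.p c1)
    (hp2 : 7 * D.m ≤ D.p c2) (hq1 : D.q c1 ≤ X + 1) (hq2 : D.q c2 ≤ X + 1) (hd0 : 0 < d)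
    (hd : d < D.m) (h : ∀ s, D.m ≤ s → s + d ≤ X → D.W c0 (s + d) = D.W c0 s) : False := by
  obtain ⟨e1, a1, a2, a3⟩ := D.short_per hp1 hq1 hd0 hd h
  obtain ⟨e2, b1, b2, b3⟩ := D.short_per hp2 hq2 hd0 hd h
  refine hne (D.sep c1 c2 (fun y hy => ?_))
  rw [← a3 y (by omega), ← b3 y (by omega), D.agree c1 c2 (y + e1) (by omega),
    ← b3 (y + e1) (by omega), D.agree c2 c1 (y + e2) (by omega), ← a3 (y + e2) (by omega),
    D.agree c2 c1 _ (by omega)]
  congr 1; omega

lemma bad_card (c0 : Φ) {X : ℕ} (hX : 7 * D.m ≤ X)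
    (hap : ∀ d, 0 < d → d < D.m →
      ¬ ∀ s, D.m ≤ s → s + d ≤ X → D.W c0 (s + d) = D.W c0 s)
    (B : Finset Φ) (hB : ∀ b ∈ B, ∃ c t, 1 ≤ t ∧ t < 2 * X + D.m ∧
      ∀ s ≤ X, D.W c (t + s) = D.W b s) : B.card ≤ 10 := by
  classical
  have hex : ∀ b, ∃ t, b ∈ B → D.m ≤ t ∧ t < 2 * X + D.m ∧
      ∀ s ≤ X, D.W c0 (t + s) = D.W b s := by
    intro b
    by_cases hb : b ∈ B
    · obtain ⟨c, t, h1, h2, h3⟩ := hB b hb
      have hm : D.m ≤ t := by
        by_contra hn
        refine hap t (by omega) (by omega) (fun s hs hs2 => ?_)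
        rw [D.agree c0 c _ (by omega), D.agree c0 b s hs, ← h3 s (by omega), add_comm]
      exact ⟨t, fun _ => ⟨hm, h2, fun s hs => by
        rw [D.agree c0 c _ (by omega), h3 s hs]⟩⟩
    · exact ⟨0, fun h => absurd h hb⟩
  choose t ht using hex
  have rel : ∀ b ∈ B, ∀ b' ∈ B, b ≠ b' → t b ≤ t b' → D.m ≤ t b' - t b ∧
      ∀ s, t b' - t b + s ≤ X → D.W b (t b' - t b + s) = D.W b' s := by
    intro b hb b' hb' hne hle
    obtain ⟨a1, a2, a3⟩ := ht b hb
    obtain ⟨b1, b2, b3⟩ := ht b' hb'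
    have k : ∀ s, t b' - t b + s ≤ X → D.W b (t b' - t b + s) = D.W b' s := fun s hs => by
      rw [← a3 _ hs, ← b3 s (by omega)]
      congr 1; omega
    refine ⟨?_, k⟩
    by_contra hn
    rcases Nat.eq_zero_or_pos (t b' - t b) with h0 | h0
    · exact hne (D.sep b b' (fun y hy => by simpa [h0] using k y (by omega)))
    · refine hap _ h0 (by omega) (fun s hs hs2 => ?_)
      rw [D.agree c0 b _ (by omega), D.agree c0 b' s hs, ← k s (by omega), add_comm]
  obtain ⟨ω, hω⟩ : ∃ ω, ω = 2 * X / 5 + 1 := ⟨_, rfl⟩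
  have tri : ∀ x ∈ B, ∀ y ∈ B, ∀ z ∈ B, x ≠ y → x ≠ z → t x ≤ t y → t x ≤ t z →
      t y < t x + ω → t z < t x + ω → y = z := by
    intro x hx y hy z hz hxy hxz h1 h2 h3 h4
    obtain ⟨a1, a2⟩ := rel x hx y hy hxy h1
    obtain ⟨b1, b2⟩ := rel x hx z hz hxz h2
    exact D.eq_of_two a1 b1 (X := X) (by omega) a2 b2
  have hb := card_le_mul_card_image_of_maps_to (s := B) (t := range 5)
    (f := fun b => (t b - D.m) / ω) (fun b hb => by
      obtain ⟨a1, a2, _⟩ := ht b hb
      rw [mem_range]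
      exact Nat.div_lt_of_lt_mul (by omega)) 2 (fun v _ => by
      by_contra hc
      push Not at hc
      obtain ⟨x, y, z, hx, hy, hz, hxy, hxz, hyz⟩ := two_lt_card_iff.1 hc
      have near : ∀ u ∈ B.filter (fun b => (t b - D.m) / ω = v),
          u ∈ B ∧ D.m + ω * v ≤ t u ∧ t u < D.m + ω * v + ω := by
        intro u hu
        obtain ⟨h1, h2⟩ := mem_filter.1 hu
        have a1 := (ht u h1).1
        have a2 := Nat.div_add_mod (t u - D.m) ω
        have a3 := Nat.mod_lt (t u - D.m) (show 0 < ω by omega)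
        rw [h2] at a2
        exact ⟨h1, by omega, by omega⟩
      obtain ⟨x1, x2, x3⟩ := near x hx
      obtain ⟨y1, y2, y3⟩ := near y hy
      obtain ⟨z1, z2, z3⟩ := near z hz
      by_cases c1 : t x ≤ t y ∧ t x ≤ t z
      · exact hyz (tri x x1 y y1 z z1 hxy hxz c1.1 c1.2 (by omega) (by omega))
      by_cases c2 : t y ≤ t x ∧ t y ≤ t z
      · exact hxz (tri y y1 x x1 z z1 hxy.symm hyz c2.1 c2.2 (by omega) (by omega))
      · exact hxy (tri z z1 x x1 y y1 hxz.symm hyz.symm (by omega) (by omega) (by omega)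
          (by omega)))
  simpa using hb

lemma big_bound {n : ℕ} (hn : ∀ c, 2 * D.q c ≤ n) (hm : D.m ≤ n) (B : Finset Φ)
    (hB : ∀ b ∈ B, 7 * D.m ≤ D.p b) : D.m * 4 ^ B.card ≤ 4 ^ 11 * n := by
  classical
  by_cases hc : B.card ≤ 11
  · rw [mul_comm]
    exact Nat.mul_le_mul (Nat.pow_le_pow_right (by norm_num) hc) hm
  rcases Nat.eq_zero_or_pos D.m with hm0 | hm0
  · rw [hm0]; simp
  obtain ⟨c1, h1, hmin1⟩ := exists_min_image B D.q (card_pos.1 (by omega))
  have hce := card_erase_of_mem h1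
  obtain ⟨c2, h2, hmin2⟩ := exists_min_image (B.erase c1) D.q (card_pos.1 (by omega))
  obtain ⟨hne, h2'⟩ := mem_erase.1 h2
  have a1 := hB c1 h1
  have a2 := hB c2 h2'
  have a3 := D.pq c2
  have a4 := hmin1 c2 h2'
  obtain ⟨X, hX⟩ : ∃ X, D.q c2 = X + 1 := ⟨D.q c2 - 1, by omega⟩
  let bad : Φ → Prop := fun b => ∃ c t, 1 ≤ t ∧ t < 2 * X + D.m ∧
      ∀ s ≤ X, D.W c (t + s) = D.W b s
  have hbad := D.bad_card c1 (X := X) (by omega)
    (fun d hd0 hd h => D.aperiodic hne.symm a1 a2 (by omega) (by omega) hd0 hd h)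
    ((B.erase c1).filter bad) (fun b hb => (mem_filter.1 hb).2)
  have hsplit := card_filter_add_card_filter_not (s := B.erase c1) bad
  have hinv : D.Inv ((B.erase c1).filter (fun b => ¬ bad b)) (2 * X + D.m) X := by
    refine ⟨by omega, by omega, fun b hb => ?_, fun b hb c t h3 h4 => ?_⟩
    · have := hmin2 b (mem_filter.1 hb).1
      omega
    · by_contra hcon
      push Not at hcon
      exact (mem_filter.1 hb).2 ⟨c, t, h3, h4, hcon⟩
  have hg := D.grow hn _ _ _ _ rfl hinv (by omega)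
  rw [show 2 * X + D.m - 2 * X = D.m by omega] at hg
  refine le_trans ?_ (Nat.mul_le_mul_left _ hg)
  rw [← mul_assoc, ← pow_add, mul_comm]
  exact Nat.mul_le_mul_right _ (Nat.pow_le_pow_right (by norm_num) (by omega))

lemma small_card (H : Finset ℕ) (hH : ∀ y ∈ H, y < D.m)
    (hag : ∀ c c', ∀ t, t ∉ H → D.W c t = D.W c' t) (hcov : ∀ c, D.m ≤ 2 * D.p c)
    (B : Finset Φ) (hB : ∀ b ∈ B, D.p b < 7 * D.m) :
    B.card ≤ 84 * (H.card + 1) ^ 2 + (H.card.choose 2) ^ 2 := by
  classical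
  rcases B.eq_empty_or_nonempty with h0 | ⟨c0, _⟩
  · rw [h0]; simp
  have hsep : ∀ c c', (∀ y ∈ H, D.W c y = D.W c' y) → c = c' := fun c c' h =>
    D.sep c c' (fun t _ => by
      by_cases ht : t ∈ H
      · exact h t ht
      · exact hag c c' t ht)
  let free : ℕ → Prop := fun P => ∀ j < P, j ∈ H → j + P ∉ H
  let u : Φ → ℕ := fun c => if free (D.p c) then D.p c else D.q c
  let B1 := B.filter (fun c => free (u c))
  let B2 := B.filter (fun c => ¬ free (u c))
  have hsmall : ∀ P, ¬ free P → P < D.m := by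
    intro P h
    simp only [free] at h
    push Not at h
    obtain ⟨j, _, _, h3⟩ := h
    have := hH _ h3
    omega
  have hu : ∀ c, (u c = D.p c ∨ u c = D.q c) := fun c => by
    simp only [u]; split_ifs <;> simp
  have huper : ∀ c, ∀ t < u c, D.W c (t + u c) = D.W c t := fun c t ht => by
    rcases hu c with h | h <;> rw [h] at ht ⊢
    · exact D.perp c t ht
    · exact D.perq c t ht
  have hucov : ∀ c, D.m ≤ 2 * u c := fun c => by
    have := hcov c; have := D.pq c
    rcases hu c with h | h <;> omega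
  have huinj : Set.InjOn u ↑B1 := by
    intro c hc c' _ h
    have hf : free (u c) := (mem_filter.1 hc).2
    refine hsep c c' (fun y hy => ?_)
    have a1 := hH y hy
    have a2 := hucov c
    by_cases h1 : y < u c
    · rw [← huper c y h1, ← huper c' y (by omega), ← h]
      exact hag _ _ _ (hf y h1 hy)
    · obtain ⟨j, rfl⟩ : ∃ j, y = j + u c := ⟨y - u c, by omega⟩
      rw [huper c j (by omega), h, huper c' j (by omega)]
      exact hag _ _ _ (fun hj => hf j (by omega) hj hy)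
  have hex : ∀ P, ∃ c, P ∈ B1.image u → c ∈ B1 ∧ u c = P := by
    intro P
    by_cases hP : P ∈ B1.image u
    · obtain ⟨c, h1, h2⟩ := mem_image.1 hP
      exact ⟨c, fun _ => ⟨h1, h2⟩⟩
    · exact ⟨c0, fun h => absurd h hP⟩
  choose X hX using hex
  have G : Good (D.W c0) H (B1.image u) (fun P => D.W (X P)) := by
    refine ⟨fun P hP y hy => ?_, fun P hP => ?_, fun P hP j hj => ?_,
      fun P _ y _ hy => hag _ _ _ hy, fun ψ Q hQ h => ?_⟩
    · have := hucov (X P); have := (hX P hP).2; have := hH y hy; omega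
    · have h1 := hX P hP
      have h2 : free (u (X P)) := (mem_filter.1 h1.1).2
      rwa [h1.2] at h2
    · have h1 := huper (X P) j
      rw [(hX P hP).2] at h1
      exact h1 hj
    · refine le_trans (card_le_one.2 (fun P hP P' hP' => ?_)) (by norm_num)
      rw [← (hX P (hQ hP)).2, ← (hX P' (hQ hP')).2,
        hsep (X P) (X P') (fun y hy => by rw [h P hP y hy, h P' hP' y hy])]
  have h1 : B1.card ≤ 84 * (H.card + 1) ^ 2 := by
    have := G.total ((D.m + 1) / 2) 4
    rw [filter_true_of_mem (fun P hP => by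
      obtain ⟨c, hc, rfl⟩ := mem_image.1 hP
      have a1 := hucov c
      have a2 := hB c (mem_filter.1 hc).1
      have a3 := D.q2 c
      refine ⟨by omega, ?_⟩
      simp only [u]
      split_ifs with h
      · omega
      · have := hsmall _ h; omega), card_image_of_injOn huinj] at this
    omega
  let Df : Finset ℕ := ((H ×ˢ H).filter (fun z : ℕ × ℕ => z.1 < z.2)).image (fun z => z.2 - z.1)
  have hDf : Df.card ≤ H.card.choose 2 := by
    rw [← card_product_filter_lt]; exact card_image_le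
  have hmem : ∀ P, 0 < P → ¬ free P → P ∈ Df := by
    intro P hP h
    simp only [free] at h
    push Not at h
    obtain ⟨j, _, h2, h3⟩ := h
    exact mem_image.2 ⟨(j, j + P), mem_filter.2 ⟨mem_product.2 ⟨h2, h3⟩, by
      show j < j + P; omega⟩, by simp⟩
  have h2 : B2.card ≤ (Df ×ˢ Df).card := by
    refine card_le_card_of_injOn (fun c => (D.p c, D.q c)) (fun c hc => ?_) (fun c _ c' _ h => ?_)
    · have a1 : ¬ free (u c) := (mem_filter.1 hc).2
      have a2 := D.pq c
      have a3 := D.q2 c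
      simp only [u] at a1
      split_ifs at a1 with h
      · exact absurd h a1
      · exact mem_coe.2 (mem_product.2 ⟨hmem (D.p c) (by omega) h, hmem (D.q c) (by omega) a1⟩)
    · obtain ⟨e1, e2⟩ := Prod.mk.inj h
      have a2 := D.pq c
      have a3 := D.q2 c
      have a4 := hcov c
      obtain ⟨b1, b2, b3⟩ := three_blocks a2 a3 (D.perp c) (D.perq c)
      obtain ⟨d1, d2, d3⟩ := three_blocks (D.pq c') (D.q2 c') (D.perp c') (D.perq c')
      rw [← e1, ← e2] at d1 d2 d3
      have k : ∀ s, D.W c (s % (D.q c - D.p c)) = D.W c' (s % (D.q c - D.p c)) := by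
        intro s
        have hs := Nat.mod_lt s (show 0 < D.q c - D.p c by omega)
        have f1 := b3 _ hs
        have f2 := d3 _ hs
        rw [Nat.mod_mod] at f1 f2
        rw [← f1, ← f2]
        exact D.agree _ _ _ (by omega)
      refine D.sep c c' (fun y hy => ?_)
      by_cases h1 : y < D.p c
      · rw [b1 y h1, d1 y h1, k]
      · obtain ⟨j, rfl⟩ : ∃ j, y = D.p c + j := ⟨y - D.p c, by omega⟩
        rw [b2 j (by omega), d2 j (by omega), k]
  rw [card_product] at h2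
  have h3 := card_filter_add_card_filter_not (s := B) (fun c => free (u c))
  have h4 : Df.card * Df.card ≤ (H.card.choose 2) ^ 2 := by
    rw [sq]; exact Nat.mul_le_mul hDf hDf
  simp only [B1, B2] at h1 h2
  omega

lemma total_bound [Fintype Φ] (H : Finset ℕ) (hH : ∀ y ∈ H, y < D.m)
    (hag : ∀ c c', ∀ t, t ∉ H → D.W c t = D.W c' t) (hcov : ∀ c, D.m ≤ 2 * D.p c)
    {n : ℕ} (hn : ∀ c, 2 * D.q c ≤ n) (hm : D.m ≤ n) :
    D.m * 4 ^ Fintype.card Φ ≤
      4 ^ (84 * (H.card + 1) ^ 2 + (H.card.choose 2) ^ 2 + 11) * n := by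
  classical
  have h1 := D.big_bound hn hm (univ.filter (fun c => 7 * D.m ≤ D.p c))
    (fun b hb => (mem_filter.1 hb).2)
  have h2 := D.small_card H hH hag hcov (univ.filter (fun c => ¬ 7 * D.m ≤ D.p c))
    (fun b hb => by have := (mem_filter.1 hb).2; omega)
  have h3 := card_filter_add_card_filter_not (s := (univ : Finset Φ)) (fun c => 7 * D.m ≤ D.p c)
  rw [card_univ] at h3
  rw [← h3, pow_add, ← mul_assoc, pow_add 4 _ 11, mul_assoc _ (4 ^ 11), mul_comm (4 ^ (_ + _))]
  exact Nat.mul_le_mul h1 (Nat.pow_le_pow_right (by norm_num) h2)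

end Fam

end Pool.Agent.Lib.MP_922422_co
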