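import Mathlib

/-! The block-level word with four copies per level. -/

namespace Pool.Agent.Lib.MP_922422_co.Four

/-- length of the level `T` word -/
def len : ℕ → ℕ
  | 0 => 2
  | T + 1 => 4 * len T + 2

lemma len_pos (T : ℕ) : 2 ≤ len T := by cases T <;> simp [len]

lemma len_mono : Monotone len := monotone_nat_of_le_succ (fun T => by simp only [len]; omega)

lemma len_bound (T : ℕ) : len T + 1 ≤ 3 * 4 ^ T := by
  induction T with
  | zero => simp [len]
  | succ T ih => simp only [len, pow_succ]; omega

/-- start of the block containing `t` -/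
def off (l t : ℕ) : ℕ :=
  if t < l then 0 else if t < l + 1 then l else if t < 2 * l + 1 then l + 1
  else if t < 3 * l + 1 then 2 * l + 1 else if t < 3 * l + 2 then 3 * l + 1 else 3 * l + 2

/-- the level `T` word; position `0` is reserved for the hole -/
def om : ℕ → ℕ → Option ℕ
  | 0, _ => none
  | T + 1, t => if 0 < t ∧ t = off (len T) t then some T else om T (t - off (len T) t)

lemma om_succ (T t : ℕ) : om (T + 1) t =
    if 0 < t ∧ t = off (len T) t then some T else om T (t - off (len T) t) := rfl

lemma om_zero (T : ℕ) : om T 0 = none := by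
  induction T with
  | zero => rfl
  | succ T ih => rw [om_succ]; simpa using ih

lemma om_ge (T : ℕ) : ∀ t, len T ≤ t → om T t = none := by
  induction T with
  | zero => intro t _; rfl
  | succ T ih =>
    intro t ht
    have := len_pos T
    simp only [len] at ht
    have ho : off (len T) t = 3 * len T + 2 := by
      unfold off; split_ifs <;> omega
    rw [om_succ, ho, if_neg (by omega)]
    exact ih _ (by omega)

lemma om_lt (T : ℕ) : ∀ t m, om T t = some m → m < T := by
  induction T with
  | zero => intro t m h; simp [om] at h
  | succ T ih =>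
    intro t m h
    rw [om_succ] at h
    split_ifs at h
    · have := Option.some.inj h; omega
    · have := ih _ _ h; omega

lemma om_stable {T T' : ℕ} (h : T ≤ T') {t : ℕ} (ht : t < len T) : om T' t = om T t := by
  induction T', h using Nat.le_induction with
  | base => rfl
  | succ S hS ih =>
    have h1 := len_mono hS
    have ho : off (len S) t = 0 := by
      unfold off; rw [if_pos (by omega)]
    rw [om_succ, ho, if_neg (by omega), Nat.sub_zero, ih]

/-- the word with the hole filled by `m` -/
def gg (T m t : ℕ) : Option ℕ := if t = 0 then some m else om T t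

lemma gg_succ (m t : ℕ) : gg (m + 1) m t = gg m m (t - off (len m) t) := by
  unfold gg
  have hle : off (len m) t ≤ t := by unfold off; split_ifs <;> omega
  by_cases h0 : t = 0
  · subst h0; simp
  · rw [if_neg h0, om_succ]
    by_cases h1 : t = off (len m) t
    · rw [if_pos ⟨by omega, h1⟩, if_pos (by omega)]
    · rw [if_neg (by omega), if_neg (by omega)]

lemma gg_stable {T m t : ℕ} (h : m < T) (ht : t < 4 * len m + 2) : gg T m t = gg (m + 1) m t := by
  unfold gg
  rw [om_stable (T := m + 1) (by omega) (by simpa [len] using ht)]

lemma gg_perU {T m t : ℕ} (h : m < T) (ht : t < len m + 1) :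
    gg T m (t + (len m + 1)) = gg T m t := by
  rw [gg_stable h (by omega), gg_stable h (by omega), gg_succ, gg_succ]
  congr 1
  unfold off; split_ifs <;> omega

lemma gg_perV {T m t : ℕ} (h : m < T) (ht : t < 2 * len m + 1) :
    gg T m (t + (2 * len m + 1)) = gg T m t := by
  rw [gg_stable h (by omega), gg_stable h (by omega), gg_succ, gg_succ]
  congr 1
  unfold off; split_ifs <;> omega

lemma om_top {m s : ℕ} : om (m + 1) s = some m ↔
    (s = len m ∨ s = len m + 1 ∨ s = 2 * len m + 1 ∨ s = 3 * len m + 1 ∨
      s = 3 * len m + 2) := by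
  have := len_pos m
  rw [om_succ]
  constructor
  · intro h
    split_ifs at h with h1
    · revert h1; unfold off; split_ifs <;> omega
    · have := om_lt _ _ _ h; omega
  · intro h
    rw [if_pos]
    unfold off; split_ifs <;> omega

lemma off_add (l o u : ℕ) (ho : o = 0 ∨ o = l + 1 ∨ o = 2 * l + 1 ∨ o = 3 * l + 2) (h0 : 0 < u)
    (h1 : u ≤ l) (h : o + u ≠ off l (o + u)) : off l (o + u) = o := by
  revert h
  unfold off; split_ifs <;> omega

lemma om_loc {m : ℕ} : ∀ T, m < T → ∀ c, om T c = some m →
    ∃ c0, c0 < c ∧ c0 + (4 * len m + 2) ≤ len T ∧ om (m + 1) (c - c0) = some m ∧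
      ∀ s, 0 < s → s ≤ 4 * len m + 2 → om T (c0 + s) = some m → om (m + 1) s = some m := by
  intro T hT
  induction T, hT using Nat.le_induction with
  | base =>
    intro c hc
    have h0 : c ≠ 0 := by rintro rfl; rw [om_zero] at hc; cases hc
    exact ⟨0, by omega, by simp [len], by simpa using hc, fun s _ _ h => by simpa using h⟩
  | succ S hS ih =>
    intro c hc
    rw [om_succ] at hc
    split_ifs at hc with h1
    · have := Option.some.inj hc; omega
    obtain ⟨c0, h2, h3, h4, h5⟩ := ih _ hc
    have hle : off (len S) c ≤ 3 * len S + 2 := by unfold off; split_ifs <;> omega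
    refine ⟨off (len S) c + c0, by omega, by simp only [len]; omega, ?_, fun s hs1 hs2 h => ?_⟩
    · rw [← h4]; congr 1; omega
    · apply h5 s hs1 hs2
      rw [om_succ] at h
      split_ifs at h with h6
      · have := Option.some.inj h; omega
      · rw [← h]; congr 1
        have ho : off (len S) c = 0 ∨ off (len S) c = len S + 1 ∨ off (len S) c = 2 * len S + 1 ∨
            off (len S) c = 3 * len S + 2 := by
          have h7 : off (len S) c < c := by omega
          revert h7
          unfold off; split_ifs <;> omega
        have := off_add (len S) (off (len S) c) (c0 + s) ho (by omega) (by omega)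
          (fun e => h6 ⟨by omega, by rw [add_assoc]; exact e⟩)
        rw [add_assoc, this]
        omega

lemma om_no_later {m T c : ℕ} (hT : m < T) (h0 : om T c = some m)
    (h1 : om T (c + len m) = some m) (h2 : om T (c + (len m + 1)) = some m)
    (h3 : om T (c + (2 * len m + 1)) = some m) : False := by
  obtain ⟨c0, a1, a2, a3, a4⟩ := om_loc T hT c h0
  have := len_pos m
  obtain ⟨s, rfl⟩ : ∃ s, c = c0 + s := ⟨c - c0, by omega⟩
  rw [show c0 + s - c0 = s by omega, om_top] at a3
  rw [add_assoc] at h1 h2 h3
  rcases a3 with h | h | h | h | h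
  · have := om_top.1 (a4 _ (by omega) (by omega) h1); omega
  · have := om_top.1 (a4 _ (by omega) (by omega) h2); omega
  · have := om_top.1 (a4 _ (by omega) (by omega) h3); omega
  · have := om_top.1 (a4 _ (by omega) (by omega) h1); omega
  · have := om_top.1 (a4 _ (by omega) (by omega) h1); omega

lemma gg_heads {T m : ℕ} (h : m < T) : gg T m (len m) = some m ∧
    gg T m (len m + 1) = some m ∧ gg T m (2 * len m + 1) = some m := by
  have := len_pos m
  refine ⟨?_, ?_, ?_⟩ <;>
  · rw [gg_stable h (by omega)]
    unfold gg
    rw [if_neg (by omega), om_top]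
    omega

end Pool.Agent.Lib.MP_922422_co.Four
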