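import Pool.Agent.Lib.MP_922422_co.Defs

/-! The maximal number of extremal positions. -/

namespace Pool.Agent.Lib.MP_922422_co

/-- `M(k, h, n)`: the largest number of positions `i < n` with `Sq w i = 2 * k ^ h`, over all words
`w` of length `n` over `k` letters with exactly `h` holes (`0` if there is no such word). -/
noncomputable def maxExtremal (k h n : ℕ) : ℕ :=
  sSup {t : ℕ | ∃ w : List (Option (Fin k)), w.length = n ∧ (holes w).ncard = h ∧
    Set.ncard {i : ℕ | i < n ∧ Sq w i = 2 * k ^ h} = t}

end Pool.Agent.Lib.MP_922422_co
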