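import Pool.Agent.Lib.MP_922422_co.FourBase

/-! Extremal positions force length of order `4 ^ (k ^ h)`. -/

namespace Pool.Agent.Lib.MP_922422_co

open Finset

variable {A : Type}

lemma TF_two [Fintype A] {w : List (Option A)} {H : Finset ℕ} (hH : holes w = ↑H) {i : ℕ}
    (hS : Sq w i = 2 * Fintype.card A ^ H.card) (a : A) (ψ : H → A) :
    ∃ x x', x ∈ Tset w i (ext H a ψ) ∧ x' ∈ Tset w i (ext H a ψ) ∧ x.length < x'.length := by
  classical
  have h2 : 1 < (TF w i (ext H a ψ)).card := by
    by_contra hc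
    rw [Sq_eq, Set.ncard_eq_toFinset_card _ (Sset_finite w i)] at hS
    have hsub : (Sset_finite w i).toFinset ⊆
        (univ : Finset (H → A)).biUnion (fun ψ => TF w i (ext H a ψ)) := by
      intro x hx
      rw [Set.Finite.mem_toFinset] at hx
      exact mem_biUnion.2 ⟨fun y => rd a x i y.1, mem_univ _,
        mem_TF.2 (mem_T_rd hH a hx _ (fun _ _ _ => rfl))⟩
    have h1 := (card_le_card hsub).trans card_biUnion_le
    have hlt : ∑ φ : H → A, (TF w i (ext H a φ)).card < ∑ _φ : H → A, 2 :=
      sum_lt_sum (fun φ _ => TF_card _ _ _) ⟨ψ, mem_univ _, by omega⟩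
    have h3 : ∑ _ψ : H → A, 2 = 2 * Fintype.card A ^ H.card := by simp [mul_comm]
    omega
  obtain ⟨x, hx, x', hx', hne⟩ := one_lt_card.1 h2
  rw [mem_TF] at hx hx'
  rcases lt_or_gt_of_ne (fun h => hne (Tset_inj hx hx' h)) with h | h
  · exact ⟨x, x', hx, hx', h⟩
  · exact ⟨x', x, hx', hx, h⟩

lemma Tset_lt_two {w : List (Option A)} {i : ℕ} {ψ : ℕ → A} {x y : List A}
    (hx : x ∈ Tset w i ψ) (hy : y ∈ Tset w i ψ) : y.length < 2 * x.length := by
  by_contra hc
  have h0 : 0 < x.length := List.length_pos_of_ne_nil hx.1.1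
  have hl := hy.1.2.1.1
  refine hx.1.2.2 (i + y.length) (by omega) ⟨by omega, fun j c hj hc => ?_⟩
  rw [hx.2 j hj, ← Tset_per hy j (by omega),
    show i + (j + y.length) = i + y.length + j by omega, full_of_some hc]

theorem four_bound [Fintype A] (hk : 2 ≤ Fintype.card A) {w : List (Option A)} {H : Finset ℕ}
    (hH : holes w = ↑H) {i : ℕ} (hS : Sq w i = 2 * Fintype.card A ^ H.card) {y : ℕ} (hy : y ∈ H) :
    (y + 1 - i) * 4 ^ (Fintype.card A ^ H.card) ≤
      4 ^ (84 * (H.card + 1) ^ 2 + (H.card.choose 2) ^ 2 + 11) * (w.length - i) := by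
  classical
  obtain ⟨a⟩ : Nonempty A := Fintype.card_pos_iff.1 (by omega)
  have hHi : ∀ z ∈ H, i ≤ z := fun z hz => le_of_extremal hH hk hS hz
  obtain ⟨y0, hy0, hmax⟩ := exists_max_image H id ⟨y, hy⟩
  simp only [id] at hmax
  have hnone : ∀ z, w[z]? = some none ↔ z ∈ H := fun z => by
    rw [← mem_coe, ← hH]; rfl
  have hag : ∀ (ψ ψ' : H → A) z, z ∉ H → full w (ext H a ψ) z = full w (ext H a ψ') z := by
    intro ψ ψ' z hz
    unfold full
    split
    · rfl
    · simp [ext, hz]
  have hhole : ∀ (ψ : H → A) (z : H), full w (ext H a ψ) z.1 = ψ z := by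
    intro ψ z
    rw [full_of_none ((hnone _).2 z.2)]
    simp [ext, z.2]
  choose X X' hX hX' hlt using TF_two hH hS a
  let D : Fam (H → A) A :=
    { W := fun ψ t => full w (ext H a ψ) (i + t)
      m := y0 + 1 - i
      p := fun ψ => (X ψ).length
      q := fun ψ => (X' ψ).length
      agree := fun c c' t ht => hag c c' _ (fun h => by have := hmax _ h; omega)
      sep := fun c c' h => by
        funext z
        have h1 := hHi _ z.2
        have h2 := hmax _ z.2
        have h3 := h (z.1 - i) (by omega)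
        rwa [show i + (z.1 - i) = z.1 by omega, hhole, hhole] at h3
      pq := hlt
      q2 := fun c => Tset_lt_two (hX c) (hX' c)
      perp := fun c => Tset_per (hX c)
      perq := fun c => Tset_per (hX' c) }
  let Hr : Finset ℕ := H.image (fun z => z - i)
  have hHr : Hr.card = H.card := card_image_of_injOn (fun z hz z' hz' h => by
    have := hHi z hz; have := hHi z' hz'; have h' : z - i = z' - i := h; omega)
  have hy0l : y0 < w.length := by
    by_contra h
    have h4 := (hnone y0).2 hy0
    rw [List.getElem?_eq_none (by omega)] at h4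
    cases h4
  have hb := D.total_bound Hr (fun z hz => by
      obtain ⟨z', hz', rfl⟩ := mem_image.1 hz
      have := hmax _ hz'
      have := hHi _ hz'
      show z' - i < y0 + 1 - i
      omega)
    (fun c c' t ht => hag c c' _ (fun h => ht (mem_image.2 ⟨i + t, h, by omega⟩)))
    (fun c => by
      have := (cover hH hk hS (hX c).1 hy0).2
      show y0 + 1 - i ≤ 2 * (X c).length
      omega)
    (n := w.length - i) (fun c => by
      have := (hX' c).1.2.1.1
      show 2 * (X' c).length ≤ _
      omega)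
    (by show y0 + 1 - i ≤ _; omega)
  rw [hHr, show Fintype.card (H → A) = Fintype.card A ^ H.card by simp] at hb
  refine le_trans (Nat.mul_le_mul_right _ ?_) hb
  have := hmax y hy
  show y + 1 - i ≤ y0 + 1 - i
  omega

end Pool.Agent.Lib.MP_922422_co
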