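import Pool.Agent.Lib.MP_922422_co.FourDefs
import Pool.Agent.Lib.MP_922422_co.FourLower
import Pool.Agent.Lib.MP_922422_co.FourBuild

/-! The order of magnitude of the number of extremal positions. -/

namespace Pool.Agent.Lib.MP_922422_co

open Finset

lemma ext_bdd (k h n : ℕ) : BddAbove {t : ℕ | ∃ w : List (Option (Fin k)), w.length = n ∧
    (holes w).ncard = h ∧ Set.ncard {i : ℕ | i < n ∧ Sq w i = 2 * k ^ h} = t} := by
  refine ⟨n, ?_⟩
  rintro t ⟨w, _, _, rfl⟩
  have : {i : ℕ | i < n ∧ Sq w i = 2 * k ^ h} ⊆ ↑(range n) := fun i hi => by simpa using hi.1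
  simpa using Set.ncard_le_ncard this (finite_toSet _)

lemma holes_finite {A : Type} (w : List (Option A)) : (holes w).Finite := by
  refine (Set.finite_lt_nat w.length).subset (fun y hy => ?_)
  by_contra h
  have h4 : w[y]? = some none := hy
  rw [List.getElem?_eq_none (by simpa using h)] at h4
  cases h4

lemma max_upper {k h : ℕ} (hk : 2 ≤ k) (hh : 1 ≤ h) (n : ℕ) :
    maxExtremal k h n * 4 ^ (k ^ h) ≤ 4 ^ (84 * (h + 1) ^ 2 + (h.choose 2) ^ 2 + 11) * n := by
  classical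
  rcases Nat.eq_zero_or_pos (maxExtremal k h n) with h0 | h0
  · rw [h0]; simp
  obtain ⟨w, hw, hc, ht⟩ := Nat.sSup_mem (Set.nonempty_iff_ne_empty.2 (fun e => by
    unfold maxExtremal at h0; rw [e] at h0; simp at h0)) (ext_bdd k h n)
  change _ = maxExtremal k h n at ht
  let H := (holes_finite w).toFinset
  have hH : holes w = ↑H := by simp [H]
  have hHc : H.card = h := by rw [← hc, Set.ncard_eq_toFinset_card _ (holes_finite w)]
  obtain ⟨y, hy⟩ : H.Nonempty := card_pos.1 (by omega)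
  have hne : {i : ℕ | i < n ∧ Sq w i = 2 * k ^ h}.Nonempty :=
    Set.nonempty_of_ncard_ne_zero (by omega)
  have hk' : 2 ≤ Fintype.card (Fin k) := by simpa using hk
  have hi := Nat.sInf_mem hne
  set i := sInf {i : ℕ | i < n ∧ Sq w i = 2 * k ^ h} with hidef
  have hsub : {i : ℕ | i < n ∧ Sq w i = 2 * k ^ h} ⊆ ↑(Ico i (y + 1)) := by
    intro j hj
    have h1 : i ≤ j := Nat.sInf_le hj
    have h2 := le_of_extremal hH hk' (i := j) (by rw [hHc]; simpa using hj.2) hy
    simp only [coe_Ico, Set.mem_Ico]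
    omega
  have h1 := Set.ncard_le_ncard hsub (finite_toSet _)
  rw [ht, Set.ncard_coe_finset, Nat.card_Ico] at h1
  have h2 := four_bound hk' hH (i := i) (by rw [hHc]; simpa using hi.2) hy
  rw [hHc, Fintype.card_fin, hw] at h2
  exact (Nat.mul_le_mul_right _ h1).trans (h2.trans (Nat.mul_le_mul_left _ (by omega)))

lemma max_lower {k h : ℕ} (hk : 2 ≤ k) (hh : 1 ≤ h) (n : ℕ) :
    n < 3 * 4 ^ (k ^ h) * (2 * (maxExtremal k h n + h) + 3) := by
  by_contra hc
  push Not at hc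
  obtain ⟨t, ht⟩ : ∃ t, t = maxExtremal k h n := ⟨_, rfl⟩
  rw [← ht] at hc
  have hk' : 2 ≤ Fintype.card (Fin k) := by simpa using hk
  have hcard : (Ico t (t + h)).card = h := by simp
  obtain ⟨w, hw, hH, hS⟩ := Four.attained hk' (Ico t (t + h)) 0 (t + h) n
    (fun y hy => by have := mem_Ico.1 hy; omega) ⟨t, mem_Ico.2 (by omega)⟩
    (by rw [hcard, Fintype.card_fin]; omega)
  rw [hcard, Fintype.card_fin] at hS
  have hpos : 1 ≤ 4 ^ (k ^ h) := Nat.one_le_pow _ _ (by norm_num)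
  have hn : t < n := by nlinarith
  have he : {i : ℕ | i < n ∧ Sq w i = 2 * k ^ h} = ↑(range (t + 1)) := by
    ext i
    simp only [Set.mem_ofPred_eq, coe_range, Set.mem_Iio, hS i (Nat.zero_le _)]
    constructor
    · intro h1
      have := h1.2 t (mem_Ico.2 (by omega))
      omega
    · intro h1
      exact ⟨by omega, fun y hy => by have := mem_Ico.1 hy; omega⟩
  have : t + 1 ≤ maxExtremal k h n :=
    le_csSup (ext_bdd k h n) ⟨w, hw, by rw [hH]; simp, by rw [he]; simp⟩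
  omega

theorem max_order {k h : ℕ} (hk : 2 ≤ k) (hh : 1 ≤ h) (n : ℕ) :
    (maxExtremal k h n : ℝ) ∈ Set.Icc ((n : ℝ) / (6 * 4 ^ (k ^ h)) - h - 3 / 2)
      (4 ^ (84 * (h + 1) ^ 2 + (h.choose 2) ^ 2 + 11) * n / 4 ^ (k ^ h)) := by
  have h1 : ((maxExtremal k h n * 4 ^ (k ^ h) : ℕ) : ℝ) ≤
      ((4 ^ (84 * (h + 1) ^ 2 + (h.choose 2) ^ 2 + 11) * n : ℕ) : ℝ) := by
    exact_mod_cast max_upper hk hh n
  have h2 : ((n : ℕ) : ℝ) ≤ ((3 * 4 ^ (k ^ h) * (2 * (maxExtremal k h n + h) + 3) : ℕ) : ℝ) := by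
    exact_mod_cast (max_lower hk hh n).le
  push_cast at h1 h2
  have hp : (0 : ℝ) < 4 ^ (k ^ h) := by positivity
  constructor
  · have : (n : ℝ) / (6 * 4 ^ (k ^ h)) ≤ maxExtremal k h n + h + 3 / 2 := by
      rw [div_le_iff₀ (by positivity)]
      nlinarith
    linarith
  · rw [le_div_iff₀ hp]
    exact h1

end Pool.Agent.Lib.MP_922422_co
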