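import Mathlib

/-! Growth by a factor four per filling: the induction step. -/

namespace Pool.Agent.Lib.MP_922422_co

variable {L : Type}

/-- no copy of the first `F + 1` letters of `B` in `A` before position `G` -/
def NoCopy (A B : ℕ → L) (G F : ℕ) : Prop := ∀ t < G, ∃ s ≤ F, A (t + s) ≠ B s

lemma rot_lemma {m G F : ℕ} (hmF : m ≤ F) (hFG : F < G) (N : ℕ) :
    ∀ (A B : ℕ → L) (α β κ : ℕ), α + β ≤ N → (∀ t, m ≤ t → A t = B t) →
      NoCopy A B G F → NoCopy B A G F → G ≤ α → κ ≤ α →
      (∀ s < β, B s = A (α + s)) → (∀ s < κ, B (β + s) = A s) → κ + G ≤ α + F := by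
  induction N with
  | zero => intro A B α β κ h _ _ _ h1 _ _ _; omega
  | succ N ih =>
    intro A B α β κ hN hag hAB hBA hα hκ h1 h2
    by_cases hk : κ ≤ F
    · omega
    have hβ : G ≤ β := by
      by_contra hb
      obtain ⟨s, hs, hne⟩ := hBA β (by omega)
      exact hne (h2 s (by omega))
    by_cases hab : α ≤ β
    · refine ih A B α (β - α) κ (by omega) hag hAB hBA hα hκ (fun s hs => h1 s (by omega))
        (fun s hs => ?_)
      rw [h1 _ (by omega), show α + (β - α + s) = β + s by omega, hag _ (by omega), h2 s hs]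
    · by_cases hc : κ ≤ α - β + F
      · omega
      have := ih B A β (α - β) (κ - (α - β)) (by omega) (fun t ht => (hag t ht).symm) hBA hAB hβ
        (by omega) (fun s hs => (h2 s (by omega)).symm) (fun s hs => by
          rw [← h2 _ (by omega), show β + (α - β + s) = α + s by omega, ← hag _ (by omega),
            h1 s (by omega)])
      omega

lemma piece_lemma {m G F : ℕ} (hmF : m ≤ F) (hFG : F < G) {A B : ℕ → L}
    (hag : ∀ t, m ≤ t → A t = B t) (hAB : NoCopy A B G F) (hBA : NoCopy B A G F)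
    (α β R l : ℕ) (h1 : ∀ s < l, s < β → B s = A (α + s))
    (h2 : ∀ s < R, β + s < l → B (β + s) = A s) :
    l ≤ 2 * F ∨ l + G ≤ α + β + F ∨ R ≤ F ∨ R + 2 * G ≤ α + β + F := by
  by_cases hl : l ≤ 2 * F
  · exact Or.inl hl
  by_cases hR : R ≤ F
  · exact Or.inr (Or.inr (Or.inl hR))
  have hα : G ≤ α := by
    by_contra ha
    obtain ⟨s, hs, hne⟩ := hAB α (by omega)
    have hb : β ≤ s := by
      by_contra hb
      exact hne (h1 s (by omega) (by omega)).symm
    obtain ⟨s', hs', hne'⟩ := hBA β (by omega)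
    exact hne' (h2 s' (by omega) (by omega))
  by_cases hlb : l ≤ β
  · omega
  have h3 := rot_lemma hmF hFG (α + β) A B α β (min (min (l - β) R) α) le_rfl hag hAB hBA hα
    (by omega) (fun s hs => h1 s (by omega) hs) (fun s hs => h2 s (by omega) (by omega))
  by_cases hr : l - β ≤ R
  · omega
  have hβ : G ≤ β := by
    by_contra hb
    obtain ⟨s', hs', hne'⟩ := hBA β (by omega)
    exact hne' (h2 s' (by omega) (by omega))
  omega

lemma block_lemma {m G F : ℕ} (hmF : m ≤ F) (hFG : 2 * F < G) {A B g : ℕ → L}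
    (hag : ∀ t, m ≤ t → A t = B t) (hAB : NoCopy A B G F) (hBA : NoCopy B A G F)
    {π μ e t l : ℕ} (hμ : μ < π) (hπ : G ≤ π + F) (he : 1 ≤ e)
    (hg : ∀ j s, g (π * j + s) = g s) (hA : ∀ s < π + μ, A s = g s) (ht : t < π * e + μ)
    (h1 : ∀ s < l, t + s < π * e + μ → B s = g (t + s))
    (h2 : ∀ s < l, ∀ u < π + μ, t + s = π * e + μ + u → B s = g u) :
    l ≤ 2 * F ∨ l + G ≤ π + F ∨ (G + μ ≤ π + 5 * F ∧ l + G ≤ π + μ + F) := by
  have hF : F < G := by omega
  obtain ⟨e', rfl⟩ : ∃ e', e = e' + 1 := ⟨e - 1, by omega⟩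
  rw [mul_add, mul_one] at ht h1 h2
  by_cases hlast : π * e' ≤ t
  · obtain ⟨α, rfl⟩ : ∃ α, t = π * e' + α := ⟨t - π * e', by omega⟩
    have k1 : ∀ s < l, α + s < π + μ → B s = g (α + s) := fun s hs h => by
      rw [h1 s hs (by omega), add_assoc, hg]
    by_cases hC : G + μ ≤ π + 5 * F
    · have := piece_lemma hmF hF hag hAB hBA α (π + μ - α) (π + μ) l
        (fun s hs h => by rw [k1 s hs (by omega), hA _ (by omega)])
        (fun s hs h => by rw [h2 _ h s hs (by omega), hA _ hs])
      omega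
    · by_cases hu : π ≤ α
      · have := piece_lemma hmF hF hag hAB hBA (α - π) (π + μ - α) π l
          (fun s hs h => by
            rw [k1 s hs (by omega), hA _ (by omega), ← hg 1 (α - π + s)]
            congr 1; omega)
          (fun s hs h => by rw [h2 _ h s (by omega) (by omega), hA _ (by omega)])
        omega
      · have := piece_lemma hmF hF hag hAB hBA α (π - α) μ l
          (fun s hs h => by rw [k1 s hs (by omega), hA _ (by omega)])
          (fun s hs h => by
            rw [k1 _ h (by omega), hA _ (by omega), ← hg 1 s]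
            congr 1; omega)
        omega
  · have hd := Nat.div_add_mod t π
    have hm := Nat.mod_lt t (show 0 < π by omega)
    have hj : t / π < e' := by
      rw [Nat.div_lt_iff_lt_mul (by omega), mul_comm]; omega
    have hj2 : π * (t / π + 1) ≤ π * e' := Nat.mul_le_mul_left _ hj
    rw [mul_add, mul_one] at hj2
    generalize t / π = j at *
    generalize t % π = α at *
    subst hd
    have := piece_lemma hmF hF hag hAB hBA α (π - α) π l
      (fun s hs h => by rw [h1 s hs (by omega), add_assoc, hg, hA _ (by omega)])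
      (fun s hs h => by
        rw [h1 _ h (by omega), hA _ (by omega), ← hg (j + 1) s]
        congr 1; rw [mul_add]; omega)
    omega

/-- the three periodic blocks of a double square -/
lemma three_blocks {A : ℕ → L} {p q : ℕ} (hpq : p < q) (hq2 : q < 2 * p)
    (hp : ∀ t < p, A (t + p) = A t) (hq : ∀ t < q, A (t + q) = A t) :
    (∀ s < p, A s = A (s % (q - p))) ∧ (∀ s < q, A (p + s) = A (s % (q - p))) ∧
      (∀ s < q - p, A (p + q + s) = A (s % (q - p))) := by
  have h1 : ∀ s < p, A s = A (s % (q - p)) := by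
    intro s
    induction s using Nat.strong_induction_on with
    | _ s ih =>
      intro hs
      by_cases h : s < q - p
      · rw [Nat.mod_eq_of_lt h]
      · rw [Nat.mod_eq_sub_mod (by omega), ← ih _ (by omega) (by omega), ← hp s hs,
          ← hq (s - (q - p)) (by omega)]
        congr 1; omega
  refine ⟨h1, fun s hs => ?_, fun s hs => ?_⟩
  · by_cases h : s < p
    · rw [add_comm, hp s h, h1 s h]
    · rw [Nat.mod_eq_sub_mod (by omega), ← h1 _ (by omega), ← hq (s - (q - p)) (by omega)]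
      congr 1; omega
  · rw [show p + q + s = (s + p) + q by omega, hq _ (by omega), hp _ (by omega), h1 s (by omega)]

/-- a family of fillings, each with a double square at position `0` -/
structure Fam (Φ L : Type) where
  W : Φ → ℕ → L
  m : ℕ
  p : Φ → ℕ
  q : Φ → ℕ
  agree : ∀ c c' t, m ≤ t → W c t = W c' t
  sep : ∀ c c', (∀ t < m, W c t = W c' t) → c = c'
  pq : ∀ c, p c < q c
  q2 : ∀ c, q c < 2 * p c
  perp : ∀ c, ∀ t < p c, W c (t + p c) = W c t
  perq : ∀ c, ∀ t < q c, W c (t + q c) = W c t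

namespace Fam

variable {Φ : Type} (D : Fam Φ L)

/-- the invariant -/
def Inv (S : Finset Φ) (G F : ℕ) : Prop :=
  D.m ≤ F ∧ 2 * F < G ∧ (∀ b ∈ S, F < D.q b) ∧
    ∀ b ∈ S, ∀ c, ∀ t, 1 ≤ t → t < G → ∃ s ≤ F, D.W c (t + s) ≠ D.W b s

lemma noCopy {S : Finset Φ} {G F : ℕ} (h : D.Inv S G F) {a b : Φ} (hb : b ∈ S) (hab : a ≠ b) :
    NoCopy (D.W a) (D.W b) G F := by
  intro t ht
  rcases Nat.eq_zero_or_pos t with h0 | h0
  · subst h0
    by_contra hc
    push Not at hc
    exact hab (D.sep a b (fun s hs => by simpa using hc s (by have := h.1; omega)))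
  · exact h.2.2.2 b hb a t h0 ht

lemma step [DecidableEq Φ] {S : Finset Φ} {G F : ℕ} (h : D.Inv S G F) {a : Φ} (ha : a ∈ S)
    (hmin : ∀ b ∈ S, D.q a ≤ D.q b) :
    ∃ G' F', D.Inv (S.erase a) G' F' ∧ G' ≤ 2 * D.q a ∧ 4 * G + 2 * F' ≤ G' + 8 * F := by
  obtain ⟨hm, hG, hq, hc⟩ := id h
  have hpq := D.pq a
  have hq2 := D.q2 a
  have hqa := hq a ha
  have hqG : G ≤ D.q a := by
    by_contra hn
    obtain ⟨s, hs, hne⟩ := hc a ha a (D.q a) (by omega) (by omega)
    exact hne (by rw [add_comm]; exact D.perq a s (by omega))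
  have hpG : G ≤ D.p a := by
    by_contra hn
    obtain ⟨s, hs, hne⟩ := hc a ha a (D.p a) (by omega) (by omega)
    exact hne (by rw [add_comm]; exact D.perp a s (by omega))
  obtain ⟨b1, b2, b3⟩ := three_blocks hpq hq2 (D.perp a) (D.perq a)
  obtain ⟨π, hπ⟩ : ∃ π, π = D.q a - D.p a := ⟨_, rfl⟩
  rw [← hπ] at b1 b2 b3
  have hπ0 : 0 < π := by omega
  let g : ℕ → L := fun s => D.W a (s % π)
  have hg : ∀ j s, g (π * j + s) = g s := fun j s => by simp [g]
  have hπG : G ≤ π + F := by
    by_contra hn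
    obtain ⟨s, hs, hne⟩ := hc a ha a π (by omega) (by omega)
    apply hne
    rw [b1 _ (by omega), b1 s (by omega)]
    simp
  have hd := Nat.div_add_mod (D.p a) π
  have hμ := Nat.mod_lt (D.p a) hπ0
  have he : 1 ≤ D.p a / π := (Nat.one_le_div_iff hπ0).2 (by omega)
  have he2 : π * 1 ≤ π * (D.p a / π) := Nat.mul_le_mul_left _ he
  generalize D.p a / π = e at *
  generalize D.p a % π = μ at *
  obtain ⟨F', hF'⟩ : ∃ F', F' = max (2 * F) (π + F - G + if G + μ ≤ π + 5 * F then μ else 0) :=
    ⟨_, rfl⟩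
  have hpot : 4 * G + 3 * F' ≤ 2 * D.q a + 8 * F := by
    rw [hF']; split_ifs <;> omega
  have hF2 : 2 * F ≤ F' := by rw [hF']; omega
  refine ⟨2 * D.q a - F', F', ⟨by omega, by omega, fun b hb => ?_, fun b hb c t ht1 ht => ?_⟩,
    by omega, by omega⟩
  · have := hmin b (Finset.mem_erase.1 hb).2
    omega
  obtain ⟨hba, hb⟩ := Finset.mem_erase.1 hb
  by_cases htG : t < G
  · obtain ⟨s, hs, hne⟩ := hc b hb c t ht1 htG
    exact ⟨s, by omega, hne⟩
  by_contra hcon
  push Not at hcon
  have hB : ∀ s < F' + 1, D.W b s = D.W a (t + s) := fun s hs => by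
    rw [← hcon s (by omega)]; exact D.agree _ _ _ (by omega)
  have hAB := D.noCopy h hb hba.symm
  have hBA := D.noCopy h ha hba
  have hA : ∀ s < π + μ, D.W a s = g s := fun s hs => b1 s (by omega)
  have fin : ¬ (F' + 1 ≤ 2 * F ∨ F' + 1 + G ≤ π + F ∨
      (G + μ ≤ π + 5 * F ∧ F' + 1 + G ≤ π + μ + F)) := by
    rw [hF']; split_ifs <;> omega
  apply fin
  by_cases h1 : t < D.p a
  · exact block_lemma hm hG (D.agree a b) hAB hBA hμ hπG he hg hA (t := t) (by omega)
      (fun s hs h => by rw [hB s hs]; exact b1 _ (by omega))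
      (fun s hs u hu h => by rw [hB s hs, h, hd]; exact b2 u (by omega))
  by_cases h2 : t < D.p a + D.q a
  · exact block_lemma hm hG (D.agree a b) hAB hBA hμ hπG (e := e + 1) (by omega) hg hA
      (t := t - D.p a) (by rw [mul_add]; omega)
      (fun s hs h => by
        rw [mul_add] at h
        rw [hB s hs, show t + s = D.p a + (t - D.p a + s) by omega]
        exact b2 _ (by omega))
      (fun s hs u hu h => by
        rw [mul_add] at h
        rw [hB s hs, show t + s = D.p a + D.q a + u by omega]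
        exact b3 u (by omega))
  · exact block_lemma hm hG (D.agree a b) hAB hBA hμ hπG he hg hA
      (t := t - (D.p a + D.q a)) (by omega)
      (fun s hs h => by
        rw [hB s hs, show t + s = D.p a + D.q a + (t - (D.p a + D.q a) + s) by omega]
        exact b3 _ (by omega))
      (fun s hs u hu h => by omega)

lemma grow [DecidableEq Φ] {n : ℕ} (hn : ∀ c, 2 * D.q c ≤ n) (k : ℕ) :
    ∀ (S : Finset Φ) (G F : ℕ), S.card = k → D.Inv S G F → G ≤ n + 2 * F →
      4 ^ k * (G - 2 * F) ≤ n := by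
  induction k with
  | zero => intro S G F _ _ h; omega
  | succ k ih =>
    intro S G F hS h _
    obtain ⟨a, ha, hmin⟩ := Finset.exists_min_image S D.q (Finset.card_pos.1 (by omega))
    obtain ⟨G', F', h1, h2, h3⟩ := D.step h ha hmin
    have h4 := ih (S.erase a) G' F' (by rw [Finset.card_erase_of_mem ha]; omega) h1
      (by have := hn a; omega)
    refine le_trans ?_ h4
    rw [pow_succ, mul_assoc]
    exact Nat.mul_le_mul_left _ (by omega)

end Fam

end Pool.Agent.Lib.MP_922422_co
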